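import Mathlib

set_option autoImplicit false

open Filter Topology

noncomputable section

namespace Pool.Agent.Helper192.HK

/-- two-point removable singularity + Liouville -/
theorem eq_zero_of_bdd_of_tendsto (f : ℂ → ℂ) (C : ℝ)
    (hd : ∀ z : ℂ, z ≠ 0 → z ≠ 1 → DifferentiableAt ℂ f z)
    (hb : ∀ z : ℂ, z ≠ 0 → z ≠ 1 → ‖f z‖ ≤ C)
    (ht : Tendsto f (cocompact ℂ) (𝓝 0)) : ∀ z : ℂ, z ≠ 0 → z ≠ 1 → f z = 0 := by
  set f1 : ℂ → ℂ := Function.update f 0 (limUnder (𝓝[≠] 0) f) with hf1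
  have h1 : DifferentiableOn ℂ f1 {1}ᶜ := by
    refine Complex.differentiableOn_update_limUnder_of_bddAbove (s := {1}ᶜ) (c := 0) ?_ ?_ ?_
    · exact isOpen_compl_singleton.mem_nhds (by simp)
    · intro z hz
      exact (hd z hz.2 hz.1).differentiableWithinAt
    · refine ⟨C, ?_⟩
      rintro _ ⟨z, hz, rfl⟩
      exact hb z hz.2 hz.1
  set f2 : ℂ → ℂ := Function.update f1 1 (limUnder (𝓝[≠] 1) f1) with hf2
  have h2 : DifferentiableOn ℂ f2 Set.univ := by
    refine Complex.differentiableOn_update_limUnder_of_bddAbove (s := Set.univ) (c := 1) Filter.univ_mem ?_ ?_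
    · refine h1.mono ?_
      intro z hz
      exact hz.2
    · refine ⟨max C ‖f1 0‖, ?_⟩
      rintro _ ⟨z, hz, rfl⟩
      by_cases h0 : z = 0
      · subst h0; exact le_max_right _ _
      · have : f1 z = f z := by rw [hf1, Function.update_of_ne h0]
        simp only [Function.comp, this]
        exact le_trans (hb z h0 hz.2) (le_max_left _ _)
  have h3 : Tendsto f2 (cocompact ℂ) (𝓝 0) := by
    refine ht.congr' ?_
    have : ({0, 1} : Set ℂ)ᶜ ∈ cocompact ℂ := by
      have hfin : ({0, 1} : Set ℂ).Finite := by simp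
      exact hfin.isCompact.compl_mem_cocompact
    filter_upwards [this] with z hz
    simp only [Set.mem_compl_iff, Set.mem_insert_iff, Set.mem_singleton_iff, not_or] at hz
    rw [hf2, Function.update_of_ne hz.2, hf1, Function.update_of_ne hz.1]
  intro z h0 h1'
  have h4 : f2 z = 0 := Differentiable.apply_eq_of_tendsto_cocompact (differentiableOn_univ.mp h2) z h3
  rw [hf2, Function.update_of_ne h1', hf1, Function.update_of_ne h0] at h4
  exact h4

theorem idem_of_resolvent {B : Type*} [NormedRing B] [NormedAlgebra ℂ B] [CompleteSpace B]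
    (q : B) (M : ℝ)
    (h : ∀ l : ℂ, l ≠ 0 → l ≠ 1 → ∃ r : B, (algebraMap ℂ B l - q) * r = 1 ∧ r * (algebraMap ℂ B l - q) = 1 ∧
      ‖r‖ * min ‖l‖ ‖l - 1‖ ≤ M) : q * q = q := by
  have hM : 0 ≤ M := by
    obtain ⟨r, -, -, hr⟩ := h 2 (by norm_num) (by norm_num)
    exact le_trans (by positivity) hr
  have hR : ∀ l : ℂ, l ≠ 0 → l ≠ 1 → IsUnit (algebraMap ℂ B l - q) ∧
      (algebraMap ℂ B l - q) * resolvent q l = 1 ∧ ‖resolvent q l‖ * min ‖l‖ ‖l - 1‖ ≤ M := by
    intro l h0 h1
    obtain ⟨r, h2, h3, h4⟩ := h l h0 h1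
    have hu : IsUnit (algebraMap ℂ B l - q) := ⟨⟨_, r, h2, h3⟩, rfl⟩
    have hres : resolvent q l = r := by
      have : resolvent q l = Ring.inverse (algebraMap ℂ B l - q) := rfl
      rw [this]
      calc Ring.inverse (algebraMap ℂ B l - q) = Ring.inverse (algebraMap ℂ B l - q) * ((algebraMap ℂ B l - q) * r) := by
            rw [h2, mul_one]
        _ = r := by rw [← mul_assoc, Ring.inverse_mul_cancel _ hu, one_mul]
    rw [hres]
    exact ⟨hu, h2, h4⟩
  -- the function
  have key : ∀ ℓ : B →L[ℂ] ℂ, ∀ z : ℂ, z ≠ 0 → z ≠ 1 → ℓ ((q * q - q) * resolvent q z) = 0 := by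
    intro ℓ
    have hid : ∀ l : ℂ, l ≠ 0 → l ≠ 1 → (q * q - q) * resolvent q l =
        (l * (l - 1)) • resolvent q l - (q + algebraMap ℂ B (l - 1)) := by
      intro l h0 h1
      obtain ⟨-, h2, -⟩ := hR l h0 h1
      have e1 : q * q - q = algebraMap ℂ B (l * (l - 1)) - (q + algebraMap ℂ B (l - 1)) * (algebraMap ℂ B l - q) := by
        have hc : algebraMap ℂ B l * q = q * algebraMap ℂ B l := Algebra.commutes l q
        simp only [map_mul, map_sub, map_one, mul_sub, add_mul, sub_mul, mul_add, one_mul, mul_one, hc]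
        abel
      rw [e1, sub_mul, mul_assoc, h2, mul_one, Algebra.smul_def]
    set K : ℝ := ‖ℓ‖ * (3 * M + ‖q‖ + 3 + ‖q * q - q‖ * M) with hK
    refine eq_zero_of_bdd_of_tendsto _ (‖ℓ‖ * (3 * M + ‖q‖ * 1 + 3 * ‖(1 : B)‖) + ‖ℓ‖ * (‖q * q - q‖ * M)) ?_ ?_ ?_
    · intro z h0 h1
      have hz : z ∈ resolventSet ℂ q := (hR z h0 h1).1
      have hdiff : DifferentiableAt ℂ (resolvent q) z := (spectrum.hasDerivAt_resolvent_const_left hz).differentiableAt
      exact ℓ.differentiableAt.comp z (hdiff.const_mul (q * q - q))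
    · intro z h0 h1
      obtain ⟨-, -, h4⟩ := hR z h0 h1
      have hz0 : 0 < ‖z‖ := norm_pos_iff.mpr h0
      have hz1 : 0 < ‖z - 1‖ := norm_pos_iff.mpr (sub_ne_zero.mpr h1)
      have hmin : 0 < min ‖z‖ ‖z - 1‖ := lt_min hz0 hz1
      by_cases hm : 1 ≤ min ‖z‖ ‖z - 1‖
      · have : ‖resolvent q z‖ ≤ M := by
          calc ‖resolvent q z‖ = ‖resolvent q z‖ * 1 := (mul_one _).symm
            _ ≤ ‖resolvent q z‖ * min ‖z‖ ‖z - 1‖ := by gcongr
            _ ≤ M := h4
        calc ‖ℓ ((q * q - q) * resolvent q z)‖ ≤ ‖ℓ‖ * (‖q * q - q‖ * M) := by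
              refine (ℓ.le_opNorm _).trans ?_
              gcongr
              refine (norm_mul_le _ _).trans ?_
              gcongr
          _ ≤ _ := by
              have : 0 ≤ ‖ℓ‖ * (3 * M + ‖q‖ * 1 + 3 * ‖(1 : B)‖) := by positivity
              linarith
      · push Not at hm
        have hmax : max ‖z‖ ‖z - 1‖ ≤ 2 := by
          rcases min_lt_iff.mp hm with h | h
          · refine max_le (by linarith) ?_
            calc ‖z - 1‖ ≤ ‖z‖ + ‖(1 : ℂ)‖ := norm_sub_le _ _
              _ ≤ 2 := by rw [norm_one]; linarith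
          · refine max_le ?_ (by linarith)
            calc ‖z‖ = ‖(z - 1) + 1‖ := by ring_nf
              _ ≤ ‖z - 1‖ + ‖(1 : ℂ)‖ := norm_add_le _ _
              _ ≤ 2 := by rw [norm_one]; linarith
        have h5 : ‖z * (z - 1)‖ * ‖resolvent q z‖ ≤ 2 * M := by
          rw [norm_mul, ← min_mul_max ‖z‖ ‖z - 1‖]
          calc min ‖z‖ ‖z - 1‖ * max ‖z‖ ‖z - 1‖ * ‖resolvent q z‖
              = max ‖z‖ ‖z - 1‖ * (‖resolvent q z‖ * min ‖z‖ ‖z - 1‖) := by ring
            _ ≤ 2 * M := by gcongr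
        have h6 : ‖(q * q - q) * resolvent q z‖ ≤ 3 * M + ‖q‖ * 1 + 3 * ‖(1 : B)‖ := by
          rw [hid z h0 h1]
          calc ‖(z * (z - 1)) • resolvent q z - (q + algebraMap ℂ B (z - 1))‖
              ≤ ‖(z * (z - 1)) • resolvent q z‖ + (‖q‖ + ‖algebraMap ℂ B (z - 1)‖) :=
                (norm_sub_le _ _).trans (by gcongr; exact norm_add_le _ _)
            _ ≤ 2 * M + (‖q‖ + 2 * ‖(1 : B)‖) := by
                rw [norm_smul]
                gcongr
                rw [norm_algebraMap]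
                gcongr
                exact le_trans (le_max_right _ _) hmax
            _ ≤ _ := by
                have := norm_nonneg (1 : B)
                linarith
        calc ‖ℓ ((q * q - q) * resolvent q z)‖ ≤ ‖ℓ‖ * (3 * M + ‖q‖ * 1 + 3 * ‖(1 : B)‖) := by
              refine (ℓ.le_opNorm _).trans ?_
              gcongr
          _ ≤ _ := by
              have : 0 ≤ ‖ℓ‖ * (‖q * q - q‖ * M) := by positivity
              linarith
    · -- tends to zero at infinity
      have hlim : Tendsto (resolvent q : ℂ → B) (cocompact ℂ) (𝓝 0) := by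
        rw [tendsto_zero_iff_norm_tendsto_zero]
        have hb : Tendsto (fun z : ℂ => M * (‖z‖ - 1)⁻¹) (cocompact ℂ) (𝓝 (M * 0)) := by
          refine Tendsto.const_mul _ ?_
          refine tendsto_inv_atTop_zero.comp ?_
          exact tendsto_atTop_add_const_right _ _ (tendsto_norm_cocompact_atTop)
        rw [mul_zero] at hb
        refine squeeze_zero' (Eventually.of_forall fun z => norm_nonneg _) ?_ hb
        have hev : ∀ᶠ z : ℂ in cocompact ℂ, 2 ≤ ‖z‖ := tendsto_norm_cocompact_atTop.eventually_ge_atTop 2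
        filter_upwards [hev] with z hz
        have h0 : z ≠ 0 := by
          intro h; rw [h, norm_zero] at hz; linarith
        have h1 : z ≠ 1 := by
          intro h; rw [h, norm_one] at hz; linarith
        obtain ⟨-, -, h4⟩ := hR z h0 h1
        have h5 : ‖z‖ - 1 ≤ min ‖z‖ ‖z - 1‖ := by
          refine le_min (by linarith) ?_
          calc ‖z‖ - 1 = ‖z‖ - ‖(1 : ℂ)‖ := by rw [norm_one]
            _ ≤ ‖z - 1‖ := norm_sub_norm_le _ _
        rw [← div_eq_mul_inv, le_div_iff₀ (by linarith)]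
        calc ‖resolvent q z‖ * (‖z‖ - 1) ≤ ‖resolvent q z‖ * min ‖z‖ ‖z - 1‖ := by gcongr
          _ ≤ M := h4
      have h2 : Tendsto (fun z : ℂ => ℓ ((q * q - q) * resolvent q z)) (cocompact ℂ) (𝓝 (ℓ ((q * q - q) * 0))) := by
        exact (ℓ.continuous.tendsto _).comp (hlim.const_mul _)
      simpa using h2
  have h2 : (q * q - q) * resolvent q (2 : ℂ) = 0 := by
    by_contra hne
    obtain ⟨g, -, hg⟩ := exists_dual_vector ℂ _ (norm_ne_zero_iff.mpr hne)
    rw [key g 2 (by norm_num) (by norm_num)] at hg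
    exact hne (by simpa using hg.symm)
  obtain ⟨hu, h3, -⟩ := hR 2 (by norm_num) (by norm_num)
  have h4 : resolvent q (2 : ℂ) * (algebraMap ℂ B 2 - q) = 1 := by
    have : resolvent q (2 : ℂ) = Ring.inverse (algebraMap ℂ B 2 - q) := rfl
    rw [this, Ring.inverse_mul_cancel _ hu]
  have h5 : (q * q - q) * (resolvent q (2 : ℂ) * (algebraMap ℂ B 2 - q)) = 0 := by
    rw [← mul_assoc, h2, zero_mul]
  rw [h4, mul_one] at h5
  exact sub_eq_zero.mp h5

end Pool.Agent.Helper192.HK
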