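import Mathlib
import Pool.Agent.Helper192.HK.A

set_option autoImplicit false

open Filter Topology

noncomputable section

namespace Pool.Agent.Helper192.HK

section Strong

variable {X : Type*} [TopologicalSpace X] [CompactSpace X]
variable {H : Type*} [NormedAddCommGroup H] [InnerProductSpace ℂ H]

/-- random signs -/
theorem sum_sq_le (L : C(X, ℂ) →L[ℂ] H) (C : ℝ) (hC : 0 ≤ C) (f : ℕ → C(X, ℂ)) (N : ℕ) :
    ∀ g : C(X, ℂ), (∀ x, ‖g x‖ + ∑ n ∈ Finset.range N, ‖f n x‖ ≤ C) →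
      ‖L g‖ ^ 2 + ∑ n ∈ Finset.range N, ‖L (f n)‖ ^ 2 ≤ (‖L‖ * C) ^ 2 := by
  induction N with
  | zero =>
    intro g hg
    simp only [Finset.range_zero, Finset.sum_empty, add_zero] at hg ⊢
    have h1 : ‖g‖ ≤ C := (ContinuousMap.norm_le _ hC).mpr hg
    have h2 : ‖L g‖ ≤ ‖L‖ * C := (L.le_opNorm g).trans (by gcongr)
    gcongr
  | succ N ih =>
    intro g hg
    have e1 : ∀ x, ‖(g + f N) x‖ + ∑ n ∈ Finset.range N, ‖f n x‖ ≤ C := by
      intro x
      have := hg x
      rw [Finset.sum_range_succ] at this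
      have h3 : ‖(g + f N) x‖ ≤ ‖g x‖ + ‖f N x‖ := norm_add_le _ _
      linarith
    have e2 : ∀ x, ‖(g - f N) x‖ + ∑ n ∈ Finset.range N, ‖f n x‖ ≤ C := by
      intro x
      have := hg x
      rw [Finset.sum_range_succ] at this
      have h3 : ‖(g - f N) x‖ ≤ ‖g x‖ + ‖f N x‖ := norm_sub_le _ _
      linarith
    have h1 := ih _ e1
    have h2 := ih _ e2
    have h3 := parallelogram_law_with_norm ℂ (L g) (L (f N))
    rw [map_add] at h1
    rw [map_sub] at h2
    rw [Finset.sum_range_succ]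
    nlinarith

theorem tendsto_zero_of_sum (L : C(X, ℂ) →L[ℂ] H) (C : ℝ) (hC : 0 ≤ C) (f : ℕ → C(X, ℂ))
    (hf : ∀ N x, ∑ n ∈ Finset.range N, ‖f n x‖ ≤ C) : Tendsto (fun n => L (f n)) atTop (𝓝 0) := by
  have hs : Summable (fun n => ‖L (f n)‖ ^ 2) := by
    refine summable_of_sum_range_le (c := (‖L‖ * C) ^ 2) (fun n => by positivity) ?_
    intro N
    have := sum_sq_le L C hC f N 0 (by intro x; simpa using hf N x)
    simpa using this
  have h1 := hs.tendsto_atTop_zero
  rw [tendsto_zero_iff_norm_tendsto_zero]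
  have h2 : Tendsto (fun n => Real.sqrt (‖L (f n)‖ ^ 2)) atTop (𝓝 (Real.sqrt 0)) :=
    (Real.continuous_sqrt.tendsto 0).comp h1
  simpa [Real.sqrt_sq] using h2

/-- the complex function of a real function -/
def toC (u : C(X, ℝ)) : C(X, ℂ) := ⟨fun x => (u x : ℂ), by fun_prop⟩

@[simp] theorem toC_apply (u : C(X, ℝ)) (x : X) : toC u x = (u x : ℂ) := rfl

theorem cauchy_of_mono (L : C(X, ℂ) →L[ℂ] H) (u : ℕ → C(X, ℝ)) (hu : Monotone u)
    (h0 : ∀ n x, 0 ≤ u n x) (h1 : ∀ n x, u n x ≤ 1) : CauchySeq (fun n => L (toC (u n))) := by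
  rw [Metric.cauchySeq_iff']
  by_contra hcon
  push Not at hcon
  obtain ⟨ε, hε, h⟩ := hcon
  choose nx hnx hd using h
  set k : ℕ → ℕ := fun j => nx^[j] 0 with hk
  have hkS : ∀ j, k (j + 1) = nx (k j) := fun j => by simp only [hk, Function.iterate_succ_apply']
  set f : ℕ → C(X, ℂ) := fun j => toC (u (k (j + 1))) - toC (u (k j)) with hf
  have hsum : ∀ N x, ∑ n ∈ Finset.range N, ‖f n x‖ ≤ 1 := by
    intro N x
    have e : ∀ n, ‖f n x‖ = u (k (n + 1)) x - u (k n) x := by
      intro n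
      have hle : u (k n) x ≤ u (k (n + 1)) x := by
        rw [hkS]
        exact hu (hnx (k n)) x
      simp only [hf, ContinuousMap.sub_apply, toC_apply]
      rw [← Complex.ofReal_sub, Complex.norm_real, Real.norm_eq_abs, abs_of_nonneg (by linarith)]
    simp only [e]
    rw [Finset.sum_range_sub (fun n => u (k n) x)]
    have := h0 (k 0) x
    have := h1 (k N) x
    linarith
  have ht := tendsto_zero_of_sum L 1 zero_le_one f hsum
  rw [tendsto_zero_iff_norm_tendsto_zero] at ht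
  have h2 : ∀ j, ε ≤ ‖L (f j)‖ := by
    intro j
    have := hd (k j)
    rw [dist_eq_norm, ← map_sub] at this
    simp only [hf, hkS]
    exact this
  have := ge_of_tendsto' ht h2
  linarith

end Strong

section Inv

variable {H : Type*} [NormedAddCommGroup H] [InnerProductSpace ℂ H] [CompleteSpace H]

theorem inv_of_strong (s r : ℕ → H →L[ℂ] H) (t : H →L[ℂ] H) (C : ℝ)
    (hs : ∀ ξ, Tendsto (fun n => s n ξ) atTop (𝓝 (t ξ)))
    (hs' : ∀ ξ, Tendsto (fun n => ContinuousLinearMap.adjoint (s n) ξ) atTop (𝓝 (ContinuousLinearMap.adjoint t ξ)))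
    (hr : ∀ n, s n * r n = 1 ∧ r n * s n = 1 ∧ ‖r n‖ ≤ C) :
    ∃ r' : H →L[ℂ] H, t * r' = 1 ∧ r' * t = 1 ∧ ‖r'‖ ≤ C := by
  have hC : 0 ≤ C := (norm_nonneg _).trans (hr 0).2.2
  have b1 : ∀ ξ, ‖ξ‖ ≤ C * ‖t ξ‖ := by
    intro ξ
    have h1 : ∀ n, ‖ξ‖ ≤ C * ‖s n ξ‖ := by
      intro n
      obtain ⟨-, h2, h3⟩ := hr n
      calc ‖ξ‖ = ‖(r n * s n) ξ‖ := by rw [h2]; rfl
        _ = ‖r n (s n ξ)‖ := rfl
        _ ≤ ‖r n‖ * ‖s n ξ‖ := (r n).le_opNorm _
        _ ≤ C * ‖s n ξ‖ := by gcongr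
    exact ge_of_tendsto' ((hs ξ).norm.const_mul C) h1
  have b2 : ∀ ξ, ‖ξ‖ ≤ C * ‖ContinuousLinearMap.adjoint t ξ‖ := by
    intro ξ
    have h1 : ∀ n, ‖ξ‖ ≤ C * ‖ContinuousLinearMap.adjoint (s n) ξ‖ := by
      intro n
      obtain ⟨h2, -, h3⟩ := hr n
      have h4 : ContinuousLinearMap.adjoint (r n) * ContinuousLinearMap.adjoint (s n) = 1 := by
        have : star (s n * r n) = star (1 : H →L[ℂ] H) := by rw [h2]
        rw [star_mul, star_one] at this
        exact this
      calc ‖ξ‖ = ‖(ContinuousLinearMap.adjoint (r n) * ContinuousLinearMap.adjoint (s n)) ξ‖ := by rw [h4]; rfl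
        _ = ‖ContinuousLinearMap.adjoint (r n) (ContinuousLinearMap.adjoint (s n) ξ)‖ := rfl
        _ ≤ ‖ContinuousLinearMap.adjoint (r n)‖ * ‖ContinuousLinearMap.adjoint (s n) ξ‖ := ContinuousLinearMap.le_opNorm _ _
        _ ≤ C * ‖ContinuousLinearMap.adjoint (s n) ξ‖ := by
            rw [LinearIsometryEquiv.norm_map]
            gcongr
    exact ge_of_tendsto' ((hs' ξ).norm.const_mul C) h1
  have hinj : Function.Injective t := by
    rw [injective_iff_map_eq_zero]
    intro ξ hξ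
    have := b1 ξ
    rw [hξ, norm_zero, mul_zero] at this
    exact norm_le_zero_iff.mp this
  have hanti : AntilipschitzWith C.toNNReal t := by
    refine t.antilipschitz_of_bound ?_
    intro x
    rw [Real.coe_toNNReal C hC]
    exact b1 x
  have hcl : IsClosed (Set.range t) := hanti.isClosed_range t.uniformContinuous
  have hker : LinearMap.ker (ContinuousLinearMap.adjoint t : H →L[ℂ] H).toLinearMap = ⊥ := by
    rw [LinearMap.ker_eq_bot']
    intro ξ hξ
    have := b2 ξ
    have hξ' : ContinuousLinearMap.adjoint t ξ = 0 := hξ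
    rw [hξ', norm_zero, mul_zero] at this
    exact norm_le_zero_iff.mp this
  have hsurj : LinearMap.range t.toLinearMap = ⊤ := by
    have h1 : (LinearMap.range t.toLinearMap)ᗮ = ⊥ := by
      rw [← hker]
      exact ContinuousLinearMap.orthogonal_range t
    have h2 := (Submodule.topologicalClosure_eq_top_iff (K := LinearMap.range t.toLinearMap)).mpr h1
    have h3 : IsClosed ((LinearMap.range t.toLinearMap : Submodule ℂ H) : Set H) := by
      have : ((LinearMap.range t.toLinearMap : Submodule ℂ H) : Set H) = Set.range t := by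
        ext y; simp
      rw [this]; exact hcl
    rw [h3.submodule_topologicalClosure_eq] at h2
    exact h2
  set e := ContinuousLinearEquiv.ofBijective t (LinearMap.ker_eq_bot.mpr hinj) hsurj with he
  refine ⟨(e.symm : H →L[ℂ] H), ?_, ?_, ?_⟩
  · ext ξ
    show t (e.symm ξ) = ξ
    exact e.apply_symm_apply ξ
  · ext ξ
    show e.symm (t ξ) = ξ
    exact e.symm_apply_apply ξ
  · refine ContinuousLinearMap.opNorm_le_bound _ hC ?_
    intro ξ
    have h1 := b1 (e.symm ξ)
    have h2 : t (e.symm ξ) = ξ := e.apply_symm_apply ξ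
    rw [h2] at h1
    exact h1

end Inv

end Pool.Agent.Helper192.HK
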