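import Mathlib
import Pool.Agent.Helper192.HK.A
import Pool.Agent.Helper192.HK.B

set_option autoImplicit false

open Filter Topology

noncomputable section

namespace Pool.Agent.Helper192.HK

/-- the elementary inequality for the detour -/
theorem detour (l : ℂ) (t e : ℝ) (ht0 : 0 ≤ t) (ht1 : t ≤ 1) (he : e = 1 ∨ e = -1) (hl : e * l.im ≤ 0) :
    min ‖l‖ ‖l - 1‖ ≤ 2 * ‖l - ((t : ℂ) + Complex.I * ((e * (2 * (t * (1 - t))) : ℝ) : ℂ))‖ := by
  set w : ℝ := 2 * (t * (1 - t)) with hw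
  have hw0 : 0 ≤ w := by rw [hw]; nlinarith [mul_nonneg ht0 (sub_nonneg.mpr ht1)]
  set d : ℝ := ‖l - (t : ℂ)‖ with hd
  have h1 : ‖l‖ ≤ d + t := by
    calc ‖l‖ = ‖(l - (t : ℂ)) + (t : ℂ)‖ := by ring_nf
      _ ≤ ‖l - (t : ℂ)‖ + ‖(t : ℂ)‖ := norm_add_le _ _
      _ = d + t := by rw [Complex.norm_real, Real.norm_eq_abs, abs_of_nonneg ht0]
  have h2 : ‖l - 1‖ ≤ d + (1 - t) := by
    calc ‖l - 1‖ = ‖(l - (t : ℂ)) - ((1 - t : ℝ) : ℂ)‖ := by congr 1; push_cast; ring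
      _ ≤ ‖l - (t : ℂ)‖ + ‖((1 - t : ℝ) : ℂ)‖ := norm_sub_le _ _
      _ = d + (1 - t) := by rw [Complex.norm_real, Real.norm_eq_abs, abs_of_nonneg (by linarith)]
  have h3 : min ‖l‖ ‖l - 1‖ ≤ d + w := by
    rcases le_total t (1 / 2) with h | h
    · refine (min_le_left _ _).trans (h1.trans ?_)
      have : t ≤ w := by rw [hw]; nlinarith
      linarith
    · refine (min_le_right _ _).trans (h2.trans ?_)
      have : 1 - t ≤ w := by rw [hw]; nlinarith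
      linarith
  set D : ℝ := ‖l - ((t : ℂ) + Complex.I * ((e * w : ℝ) : ℂ))‖ with hD
  have hD2 : D ^ 2 = (l.re - t) ^ 2 + (l.im - e * w) ^ 2 := by
    rw [hD, ← Complex.normSq_eq_norm_sq, Complex.normSq_apply]
    simp
    ring
  have hd2 : d ^ 2 = (l.re - t) ^ 2 + l.im ^ 2 := by
    rw [hd, ← Complex.normSq_eq_norm_sq, Complex.normSq_apply]
    simp
    ring
  have he2 : e ^ 2 = 1 := by rcases he with h | h <;> rw [h] <;> norm_num
  have h4 : d ^ 2 + w ^ 2 ≤ D ^ 2 := by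
    rw [hD2, hd2]
    have : (l.im - e * w) ^ 2 = l.im ^ 2 - 2 * w * (e * l.im) + e ^ 2 * w ^ 2 := by ring
    rw [this, he2]
    nlinarith
  have hd0 : 0 ≤ d := norm_nonneg _
  have hD0 : 0 ≤ D := norm_nonneg _
  have h5 : d + w ≤ 2 * D := by
    nlinarith [sq_nonneg (d - w), sq_nonneg (d + w), sq_nonneg (2 * D - (d + w))]
  linarith

section Step

variable {X : Type*} [TopologicalSpace X] [CompactSpace X]
variable {H : Type*} [NormedAddCommGroup H] [InnerProductSpace ℂ H] [CompleteSpace H]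

/-- invertibility hypothesis with bound -/
def HInv (S : C(X, ℂ) →L[ℂ] (H →L[ℂ] H)) (M : ℝ) : Prop :=
  ∀ f g : C(X, ℂ), f * g = 1 → ∃ r : H →L[ℂ] H, S f * r = 1 ∧ r * S f = 1 ∧ ‖r‖ ≤ M * ‖g‖

/-- strong-star convergence -/
def SSTend (s : ℕ → H →L[ℂ] H) (t : H →L[ℂ] H) : Prop :=
  (∀ ξ, Tendsto (fun n => s n ξ) atTop (𝓝 (t ξ))) ∧
  (∀ ξ, Tendsto (fun n => ContinuousLinearMap.adjoint (s n) ξ) atTop (𝓝 (ContinuousLinearMap.adjoint t ξ)))

theorem SSTend.add {s s' : ℕ → H →L[ℂ] H} {t t' : H →L[ℂ] H} (h : SSTend s t) (h' : SSTend s' t') :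
    SSTend (fun n => s n + s' n) (t + t') := by
  refine ⟨fun ξ => ?_, fun ξ => ?_⟩
  · exact (h.1 ξ).add (h'.1 ξ)
  · simp only [map_add]
    exact (h.2 ξ).add (h'.2 ξ)

theorem SSTend.smul {s : ℕ → H →L[ℂ] H} {t : H →L[ℂ] H} (h : SSTend s t) (c : ℂ) :
    SSTend (fun n => c • s n) (c • t) := by
  refine ⟨fun ξ => ?_, fun ξ => ?_⟩
  · exact (h.1 ξ).const_smul c
  · have : ∀ u : H →L[ℂ] H, ContinuousLinearMap.adjoint (c • u) ξ = (starRingEnd ℂ c) • ContinuousLinearMap.adjoint u ξ := by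
      intro u
      rw [LinearIsometryEquiv.map_smulₛₗ]
      rfl
    simp only [this]
    exact (h.2 ξ).const_smul _

theorem SSTend.const (t : H →L[ℂ] H) : SSTend (fun _ => t) t :=
  ⟨fun _ => tendsto_const_nhds, fun _ => tendsto_const_nhds⟩

theorem SSTend.congr {s s' : ℕ → H →L[ℂ] H} {t : H →L[ℂ] H} (h : SSTend s t) (e : ∀ᶠ n in atTop, s n = s' n) :
    SSTend s' t := by
  refine ⟨fun ξ => (h.1 ξ).congr' ?_, fun ξ => (h.2 ξ).congr' ?_⟩
  · filter_upwards [e] with n hn; rw [hn]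
  · filter_upwards [e] with n hn; rw [hn]

theorem SSTend.sum {ι : Type*} (J : Finset ι) {s : ι → ℕ → H →L[ℂ] H} {t : ι → H →L[ℂ] H}
    (h : ∀ j ∈ J, SSTend (s j) (t j)) : SSTend (fun n => ∑ j ∈ J, s j n) (∑ j ∈ J, t j) := by
  classical
  induction J using Finset.induction_on with
  | empty => simpa using SSTend.const (H := H) 0
  | insert a J ha ih =>
    simp only [Finset.sum_insert ha]
    exact (h a (Finset.mem_insert_self _ _)).add (ih (fun j hj => h j (Finset.mem_insert_of_mem hj)))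

/-- norm bound for limits -/
theorem SSTend.norm_le {s : ℕ → H →L[ℂ] H} {t : H →L[ℂ] H} (h : SSTend s t) (C : ℝ) (hC : 0 ≤ C)
    (hs : ∀ᶠ n in atTop, ‖s n‖ ≤ C) : ‖t‖ ≤ C := by
  refine t.opNorm_le_bound hC (fun ξ => ?_)
  refine le_of_tendsto (h.1 ξ).norm ?_
  filter_upwards [hs] with n hn
  exact (s n).le_of_opNorm_le hn ξ

/-- idempotent limits -/
theorem idem_of_limit (S : C(X, ℂ) →L[ℂ] (H →L[ℂ] H)) (hS1 : S 1 = 1) (M : ℝ) (hM : 0 ≤ M) (hI : HInv S M)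
    (ψ : ℕ → C(X, ℝ)) (h0 : ∀ n x, 0 ≤ ψ n x) (h1 : ∀ n x, ψ n x ≤ 1) (q : H →L[ℂ] H)
    (hq : SSTend (fun n => S (toC (ψ n))) q) (hw : SSTend (fun n => S (toC (ψ n * (1 - ψ n)))) 0) : q * q = q := by
  refine idem_of_resolvent q (2 * M) ?_
  intro l hl0 hl1
  obtain ⟨e, he, hle⟩ : ∃ e : ℝ, (e = 1 ∨ e = -1) ∧ e * l.im ≤ 0 := by
    rcases le_total l.im 0 with h | h
    · exact ⟨1, Or.inl rfl, by linarith⟩
    · exact ⟨-1, Or.inr rfl, by linarith⟩
  set m : ℝ := min ‖l‖ ‖l - 1‖ with hm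
  have hm0 : 0 < m := lt_min (norm_pos_iff.mpr hl0) (norm_pos_iff.mpr (sub_ne_zero.mpr hl1))
  -- the approximants
  set g : ℕ → C(X, ℂ) := fun n => (l • (1 : C(X, ℂ))) - (toC (ψ n) + (Complex.I * ((2 * e : ℝ) : ℂ)) • toC (ψ n * (1 - ψ n))) with hg
  have hgx : ∀ n x, g n x = l - ((ψ n x : ℂ) + Complex.I * ((e * (2 * (ψ n x * (1 - ψ n x))) : ℝ) : ℂ)) := by
    intro n x
    simp only [hg, ContinuousMap.sub_apply, ContinuousMap.add_apply, ContinuousMap.smul_apply, toC_apply,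
      ContinuousMap.one_apply, smul_eq_mul, mul_one, ContinuousMap.mul_apply]
    push_cast
    ring
  have hglow : ∀ n x, m ≤ 2 * ‖g n x‖ := by
    intro n x
    rw [hgx]
    exact detour l (ψ n x) e (h0 n x) (h1 n x) he hle
  have hgne : ∀ n x, g n x ≠ 0 := by
    intro n x h
    have := hglow n x
    rw [h, norm_zero] at this
    linarith
  set gi : ℕ → C(X, ℂ) := fun n => ⟨fun x => (g n x)⁻¹, (g n).continuous.inv₀ (hgne n)⟩ with hgi
  have hmul : ∀ n, g n * gi n = 1 := by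
    intro n
    ext x
    simp only [ContinuousMap.mul_apply, ContinuousMap.one_apply, hgi, ContinuousMap.coe_mk]
    exact mul_inv_cancel₀ (hgne n x)
  have hnorm : ∀ n, ‖gi n‖ ≤ 2 / m := by
    intro n
    rw [ContinuousMap.norm_le _ (by positivity)]
    intro x
    simp only [hgi, ContinuousMap.coe_mk, norm_inv]
    rw [inv_le_comm₀ (norm_pos_iff.mpr (hgne n x)) (by positivity), inv_div]
    have := hglow n x
    linarith
  have hex : ∀ n, ∃ r : H →L[ℂ] H, S (g n) * r = 1 ∧ r * S (g n) = 1 ∧ ‖r‖ ≤ M * (2 / m) := by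
    intro n
    obtain ⟨r, h2, h3, h4⟩ := hI (g n) (gi n) (hmul n)
    exact ⟨r, h2, h3, h4.trans (by gcongr; exact hnorm n)⟩
  choose r hr1 hr2 hr3 using hex
  have hlim : SSTend (fun n => S (g n)) (l • (1 : H →L[ℂ] H) + ((-1 : ℂ) • q + (-(Complex.I * ((2 * e : ℝ) : ℂ))) • 0)) := by
    have e1 := (SSTend.const (l • (1 : H →L[ℂ] H))).add ((hq.smul (-1)).add (hw.smul (-(Complex.I * ((2 * e : ℝ) : ℂ)))))
    refine e1.congr (Eventually.of_forall fun n => ?_)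
    simp only [hg, map_sub, map_add, map_smul, hS1]
    simp only [neg_smul, one_smul]
    abel
  obtain ⟨r', h2, h3, h4⟩ := inv_of_strong _ r _ (M * (2 / m)) hlim.1 hlim.2 (fun n => ⟨hr1 n, hr2 n, hr3 n⟩)
  have e2 : (l • (1 : H →L[ℂ] H) + ((-1 : ℂ) • q + (-(Complex.I * ((2 * e : ℝ) : ℂ))) • (0 : H →L[ℂ] H))) =
      algebraMap ℂ (H →L[ℂ] H) l - q := by
    rw [Algebra.algebraMap_eq_smul_one, smul_zero, add_zero, neg_smul, one_smul, sub_eq_add_neg]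
  rw [e2] at h2 h3
  refine ⟨r', h2, h3, ?_⟩
  calc ‖r'‖ * m ≤ M * (2 / m) * m := by gcongr
    _ = 2 * M := by field_simp

end Step

end Pool.Agent.Helper192.HK
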