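import Mathlib
import Pool.Agent.Helper192.HK.C

set_option autoImplicit false
set_option linter.unusedSectionVars false

open Filter Topology

noncomputable section

namespace Pool.Agent.Helper192.HK

section

variable {X : Type*} [TopologicalSpace X] [CompactSpace X]
variable {H : Type*} [NormedAddCommGroup H] [InnerProductSpace ℂ H] [CompleteSpace H]

/-- `f ↦ (S (star f))†` -/
def dagger (S : C(X, ℂ) →L[ℂ] (H →L[ℂ] H)) : C(X, ℂ) →L[ℂ] (H →L[ℂ] H) :=
  LinearMap.mkContinuous
    { toFun := fun f => ContinuousLinearMap.adjoint (S (star f))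
      map_add' := fun f g => by simp only [star_add, map_add]
      map_smul' := fun c f => by
        rw [star_smul, map_smul, LinearIsometryEquiv.map_smulₛₗ]
        simp } ‖S‖ (fun f => by
      simp only [LinearMap.coe_mk, AddHom.coe_mk, LinearIsometryEquiv.norm_map]
      refine (S.le_opNorm _).trans ?_
      rw [norm_star])

theorem star_toC (u : C(X, ℝ)) : star (toC u) = toC u := by
  ext x
  simp

theorem dagger_toC (S : C(X, ℂ) →L[ℂ] (H →L[ℂ] H)) (u : C(X, ℝ)) :
    dagger S (toC u) = ContinuousLinearMap.adjoint (S (toC u)) := by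
  show ContinuousLinearMap.adjoint (S (star (toC u))) = _
  rw [star_toC]

/-- evaluation at a vector -/
def ev (S : C(X, ℂ) →L[ℂ] (H →L[ℂ] H)) (ξ : H) : C(X, ℂ) →L[ℂ] H :=
  (ContinuousLinearMap.apply ℂ H ξ).comp S

theorem ev_apply (S : C(X, ℂ) →L[ℂ] (H →L[ℂ] H)) (ξ : H) (f : C(X, ℂ)) : ev S ξ f = S f ξ := rfl

theorem ssTend_zero (S : C(X, ℂ) →L[ℂ] (H →L[ℂ] H)) (w : ℕ → C(X, ℝ)) (C : ℝ) (hC : 0 ≤ C)
    (hw : ∀ N x, ∑ n ∈ Finset.range N, |w n x| ≤ C) : SSTend (fun n => S (toC (w n))) 0 := by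
  have hw' : ∀ N x, ∑ n ∈ Finset.range N, ‖toC (w n) x‖ ≤ C := by
    intro N x
    simpa using hw N x
  refine ⟨fun ξ => ?_, fun ξ => ?_⟩
  · have := tendsto_zero_of_sum (ev S ξ) C hC (fun n => toC (w n)) hw'
    simpa [ev_apply] using this
  · have := tendsto_zero_of_sum (ev (dagger S) ξ) C hC (fun n => toC (w n)) hw'
    simp only [ev_apply, dagger_toC] at this
    simpa using this

theorem exists_ssTend (S : C(X, ℂ) →L[ℂ] (H →L[ℂ] H)) (u : ℕ → C(X, ℝ)) (hu : Monotone u)
    (h0 : ∀ n x, 0 ≤ u n x) (h1 : ∀ n x, u n x ≤ 1) : ∃ q, SSTend (fun n => S (toC (u n))) q := by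
  have c1 : ∀ ξ, ∃ y, Tendsto (fun n => S (toC (u n)) ξ) atTop (𝓝 y) := by
    intro ξ
    exact cauchySeq_tendsto_of_complete (cauchy_of_mono (ev S ξ) u hu h0 h1)
  have c2 : ∀ ξ, ∃ y, Tendsto (fun n => ContinuousLinearMap.adjoint (S (toC (u n))) ξ) atTop (𝓝 y) := by
    intro ξ
    have := cauchySeq_tendsto_of_complete (cauchy_of_mono (ev (dagger S) ξ) u hu h0 h1)
    simpa only [ev_apply, dagger_toC] using this
  choose f hf using c1
  choose g hg using c2
  set q : H →L[ℂ] H := continuousLinearMapOfTendsto (fun n => S (toC (u n))) (f := f) (tendsto_pi_nhds.mpr hf) with hq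
  set q' : H →L[ℂ] H := continuousLinearMapOfTendsto (fun n => ContinuousLinearMap.adjoint (S (toC (u n)))) (f := g)
    (tendsto_pi_nhds.mpr hg) with hq'
  have e1 : ∀ ξ, q ξ = f ξ := fun ξ => rfl
  have e2 : ∀ ξ, q' ξ = g ξ := fun ξ => rfl
  have e3 : q' = ContinuousLinearMap.adjoint q := by
    rw [ContinuousLinearMap.eq_adjoint_iff]
    intro x y
    have t1 : Tendsto (fun n => inner ℂ (ContinuousLinearMap.adjoint (S (toC (u n))) x) y) atTop (𝓝 (inner ℂ (q' x) y)) := by
      rw [e2]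
      exact (hg x).inner tendsto_const_nhds
    have t2 : Tendsto (fun n => inner ℂ x (S (toC (u n)) y)) atTop (𝓝 (inner ℂ x (q y))) := by
      rw [e1]
      exact tendsto_const_nhds.inner (hf y)
    refine tendsto_nhds_unique t1 (t2.congr ?_)
    intro n
    rw [ContinuousLinearMap.adjoint_inner_left]
  refine ⟨q, fun ξ => ?_, fun ξ => ?_⟩
  · rw [e1]; exact hf ξ
  · rw [← e3, e2]; exact hg ξ

/-- the approximate indicator of `h > s` -/
def phi (h : C(X, ℝ)) (s : ℝ) (n : ℕ) : C(X, ℝ) :=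
  ⟨fun x => max 0 (min 1 (2 ^ (n + 1) * (h x - s) - 1)), by fun_prop⟩

theorem phi_apply (h : C(X, ℝ)) (s : ℝ) (n : ℕ) (x : X) :
    phi h s n x = max 0 (min 1 (2 ^ (n + 1) * (h x - s) - 1)) := rfl

theorem phi_nonneg (h : C(X, ℝ)) (s : ℝ) (n : ℕ) (x : X) : 0 ≤ phi h s n x := le_max_left _ _

theorem phi_le_one (h : C(X, ℝ)) (s : ℝ) (n : ℕ) (x : X) : phi h s n x ≤ 1 :=
  max_le zero_le_one (min_le_left _ _)

theorem phi_eq_zero (h : C(X, ℝ)) (s : ℝ) (n : ℕ) (x : X) (hx : 2 ^ (n + 1) * (h x - s) ≤ 1) : phi h s n x = 0 := by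
  rw [phi_apply]
  exact max_eq_left ((min_le_right _ _).trans (by linarith))

theorem phi_eq_one (h : C(X, ℝ)) (s : ℝ) (n : ℕ) (x : X) (hx : 2 ≤ 2 ^ (n + 1) * (h x - s)) : phi h s n x = 1 := by
  rw [phi_apply, min_eq_left (by linarith), max_eq_right zero_le_one]

theorem phi_pos (h : C(X, ℝ)) (s : ℝ) (n : ℕ) (x : X) (hx : phi h s n x ≠ 0) : 1 < 2 ^ (n + 1) * (h x - s) := by
  by_contra hcon
  push Not at hcon
  exact hx (phi_eq_zero h s n x hcon)

theorem phi_succ (h : C(X, ℝ)) (s : ℝ) (n : ℕ) (x : X) (hx : phi h s n x ≠ 0) : phi h s (n + 1) x = 1 := by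
  have h1 := phi_pos h s n x hx
  refine phi_eq_one h s (n + 1) x ?_
  have : (2 : ℝ) ^ (n + 1 + 1) * (h x - s) = 2 * (2 ^ (n + 1) * (h x - s)) := by ring
  rw [this]; linarith

theorem phi_mono (h : C(X, ℝ)) (s : ℝ) : Monotone (phi h s) := by
  refine monotone_nat_of_le_succ ?_
  intro n x
  show phi h s n x ≤ phi h s (n + 1) x
  by_cases hx : phi h s n x = 0
  · rw [hx]; exact phi_nonneg _ _ _ _
  · rw [phi_succ h s n x hx]; exact phi_le_one _ _ _ _

theorem phi_anti (h : C(X, ℝ)) (s t : ℝ) (hst : s ≤ t) (n : ℕ) (x : X) : phi h t n x ≤ phi h s n x := by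
  rw [phi_apply, phi_apply]
  gcongr

theorem phi_trans (h : C(X, ℝ)) (s : ℝ) (N : ℕ) (x : X) :
    ∑ n ∈ Finset.range N, |(phi h s n * (1 - phi h s n)) x| ≤ 1 := by
  have h1 : ∀ n, |(phi h s n * (1 - phi h s n)) x| ≤ phi h s (n + 1) x - phi h s n x := by
    intro n
    have a0 := phi_nonneg h s n x
    have a1 := phi_le_one h s n x
    simp only [ContinuousMap.mul_apply, ContinuousMap.sub_apply, ContinuousMap.one_apply]
    rw [abs_of_nonneg (mul_nonneg a0 (by linarith))]
    by_cases hx : phi h s n x = 0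
    · rw [hx]
      have := phi_nonneg h s (n + 1) x
      linarith
    · rw [phi_succ h s n x hx]
      nlinarith
  calc ∑ n ∈ Finset.range N, |(phi h s n * (1 - phi h s n)) x| ≤ ∑ n ∈ Finset.range N, (phi h s (n + 1) x - phi h s n x) :=
        Finset.sum_le_sum (fun n _ => h1 n)
    _ = phi h s N x - phi h s 0 x := Finset.sum_range_sub (fun n => phi h s n x) N
    _ ≤ 1 := by
        have := phi_nonneg h s 0 x
        have := phi_le_one h s N x
        linarith

theorem phi_cross (h : C(X, ℝ)) (s t : ℝ) (n : ℕ) (hn : 1 ≤ 2 ^ n * (t - s)) (x : X) :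
    phi h t n x * (1 - phi h s n x) = 0 := by
  by_cases hx : phi h t n x = 0
  · rw [hx, zero_mul]
  · have h1 := phi_pos h t n x hx
    have h2 : phi h s n x = 1 := by
      refine phi_eq_one h s n x ?_
      have : (2 : ℝ) ^ (n + 1) * (h x - s) = 2 ^ (n + 1) * (h x - t) + 2 * (2 ^ n * (t - s)) := by ring
      rw [this]; linarith
    rw [h2, sub_self, mul_zero]

/-- spectral idempotents -/
def sq (S : C(X, ℂ) →L[ℂ] (H →L[ℂ] H)) (h : C(X, ℝ)) (s : ℝ) : H →L[ℂ] H :=
  (exists_ssTend S (phi h s) (phi_mono h s) (phi_nonneg h s) (phi_le_one h s)).choose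

theorem sq_spec (S : C(X, ℂ) →L[ℂ] (H →L[ℂ] H)) (h : C(X, ℝ)) (s : ℝ) :
    SSTend (fun n => S (toC (phi h s n))) (sq S h s) :=
  (exists_ssTend S (phi h s) (phi_mono h s) (phi_nonneg h s) (phi_le_one h s)).choose_spec

theorem sq_idem (S : C(X, ℂ) →L[ℂ] (H →L[ℂ] H)) (hS1 : S 1 = 1) (M : ℝ) (hM : 0 ≤ M) (hI : HInv S M)
    (h : C(X, ℝ)) (s : ℝ) : sq S h s * sq S h s = sq S h s :=
  idem_of_limit S hS1 M hM hI (phi h s) (phi_nonneg h s) (phi_le_one h s) _ (sq_spec S h s)
    (ssTend_zero S (fun n => phi h s n * (1 - phi h s n)) 1 zero_le_one (phi_trans h s))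

theorem toC_add (u v : C(X, ℝ)) : toC (u + v) = toC u + toC v := by ext x; simp
theorem toC_sub (u v : C(X, ℝ)) : toC (u - v) = toC u - toC v := by ext x; simp
theorem toC_mul (u v : C(X, ℝ)) : toC (u * v) = toC u * toC v := by ext x; simp

theorem sq_sub_idem (S : C(X, ℂ) →L[ℂ] (H →L[ℂ] H)) (hS1 : S 1 = 1) (M : ℝ) (hM : 0 ≤ M) (hI : HInv S M)
    (h : C(X, ℝ)) (s t : ℝ) (hst : s < t) :
    (sq S h s - sq S h t) * (sq S h s - sq S h t) = sq S h s - sq S h t := by
  refine idem_of_limit S hS1 M hM hI (fun n => phi h s n - phi h t n) ?_ ?_ _ ?_ ?_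
  · intro n x
    have := phi_anti h s t hst.le n x
    simp only [ContinuousMap.sub_apply]
    linarith
  · intro n x
    have := phi_nonneg h t n x
    have := phi_le_one h s n x
    simp only [ContinuousMap.sub_apply]
    linarith
  · have e1 := (sq_spec S h s).add ((sq_spec S h t).smul (-1))
    have e2 : sq S h s - sq S h t = sq S h s + (-1 : ℂ) • sq S h t := by
      rw [neg_smul, one_smul, sub_eq_add_neg]
    rw [e2]
    refine e1.congr (Eventually.of_forall fun n => ?_)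
    simp only [toC_sub, map_sub, neg_smul, one_smul]
    abel
  · have e1 := (ssTend_zero S (fun n => phi h s n * (1 - phi h s n)) 1 zero_le_one (phi_trans h s)).add
      (ssTend_zero S (fun n => phi h t n * (1 - phi h t n)) 1 zero_le_one (phi_trans h t))
    rw [add_zero] at e1
    have hev : ∀ᶠ n : ℕ in atTop, 1 ≤ (2 : ℝ) ^ n * (t - s) := by
      have h1 : Tendsto (fun n : ℕ => (2 : ℝ) ^ n * (t - s)) atTop atTop :=
        (tendsto_pow_atTop_atTop_of_one_lt one_lt_two).atTop_mul_const (by linarith)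
      exact h1.eventually_ge_atTop 1
    refine e1.congr ?_
    filter_upwards [hev] with n hn
    rw [← map_add, ← toC_add]
    congr 2
    ext x
    have hc := phi_cross h s t n hn x
    simp only [ContinuousMap.mul_apply, ContinuousMap.sub_apply, ContinuousMap.one_apply, ContinuousMap.add_apply]
    linear_combination 2 * hc

theorem sq_comm (S : C(X, ℂ) →L[ℂ] (H →L[ℂ] H)) (hS1 : S 1 = 1) (M : ℝ) (hM : 0 ≤ M) (hI : HInv S M)
    (h : C(X, ℝ)) (s t : ℝ) (hst : s < t) :
    sq S h s * sq S h t + sq S h t * sq S h s = 2 * sq S h t := by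
  have h1 := sq_sub_idem S hS1 M hM hI h s t hst
  have h2 := sq_idem S hS1 M hM hI h s
  have h3 := sq_idem S hS1 M hM hI h t
  have h4 : (sq S h s - sq S h t) * (sq S h s - sq S h t) = sq S h s * sq S h s + sq S h t * sq S h t -
      (sq S h s * sq S h t + sq S h t * sq S h s) := by noncomm_ring
  rw [h4, h2, h3] at h1
  have h5 : sq S h s * sq S h t + sq S h t * sq S h s = sq S h s + sq S h t - (sq S h s - sq S h t) := by
    rw [← h1]; abel
  rw [h5]
  noncomm_ring

/-- algebra of sums -/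
theorem sum_alg {R : Type*} [Ring R] (q : ℕ → R) (h1 : ∀ i, q i * q i = q i)
    (h2 : ∀ i j, i < j → q i * q j + q j * q i = 2 * q j) (m : ℕ) :
    (∑ j ∈ Finset.range m, q j) * (∑ j ∈ Finset.range m, q j) = ∑ j ∈ Finset.range m, ((2 * j + 1 : ℕ) : R) * q j ∧
    ∀ k, m ≤ k → (∑ j ∈ Finset.range m, q j) * q k + q k * (∑ j ∈ Finset.range m, q j) = ((2 * m : ℕ) : R) * q k := by
  induction m with
  | zero => simp
  | succ m ih =>
    obtain ⟨i1, i2⟩ := ih
    refine ⟨?_, ?_⟩
    · rw [Finset.sum_range_succ, Finset.sum_range_succ (fun j => ((2 * j + 1 : ℕ) : R) * q j), ← i1]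
      have h3 := i2 m le_rfl
      have h4 : (∑ j ∈ Finset.range m, q j + q m) * (∑ j ∈ Finset.range m, q j + q m) =
          (∑ j ∈ Finset.range m, q j) * (∑ j ∈ Finset.range m, q j) +
          ((∑ j ∈ Finset.range m, q j) * q m + q m * (∑ j ∈ Finset.range m, q j)) + q m * q m := by noncomm_ring
      rw [h4, h3, h1]
      push_cast
      rw [add_mul, one_mul, add_assoc]
    · intro k hk
      rw [Finset.sum_range_succ, add_mul, mul_add]
      have h3 := i2 k (by omega)
      have h4 := h2 m k (by omega)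
      have h5 : (∑ j ∈ Finset.range m, q j) * q k + q m * q k + (q k * ∑ j ∈ Finset.range m, q j + q k * q m) =
        ((∑ j ∈ Finset.range m, q j) * q k + q k * ∑ j ∈ Finset.range m, q j) + (q m * q k + q k * q m) := by abel
      rw [h5, h3, h4]
      push_cast
      rw [← add_mul]
      congr 1
      rw [mul_add, mul_one]

theorem sum_between (c a : ℕ → ℝ) (i m : ℕ) (him : i ≤ m) (hc : ∀ j, 0 ≤ c j) (h0 : ∀ j, 0 ≤ a j) (h1 : ∀ j, a j ≤ 1)
    (hz : ∀ j, i ≤ j → a j = 0) (ho : ∀ j, j + 1 < i → a j = 1) :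
    ∑ j ∈ Finset.range (i - 1), c j ≤ ∑ j ∈ Finset.range m, c j * a j ∧
    ∑ j ∈ Finset.range m, c j * a j ≤ ∑ j ∈ Finset.range i, c j := by
  have e1 : ∑ j ∈ Finset.range m, c j * a j = ∑ j ∈ Finset.range i, c j * a j := by
    symm
    refine Finset.sum_subset (fun j hj => ?_) (fun j _ hj => ?_)
    · rw [Finset.mem_range] at hj ⊢; omega
    · rw [Finset.mem_range, not_lt] at hj
      rw [hz j hj, mul_zero]
  rw [e1]
  refine ⟨?_, ?_⟩
  · calc ∑ j ∈ Finset.range (i - 1), c j = ∑ j ∈ Finset.range (i - 1), c j * a j := by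
          refine Finset.sum_congr rfl (fun j hj => ?_)
          rw [Finset.mem_range] at hj
          rw [ho j (by omega), mul_one]
      _ ≤ ∑ j ∈ Finset.range i, c j * a j := by
          refine Finset.sum_le_sum_of_subset_of_nonneg (fun j hj => ?_) (fun j _ _ => mul_nonneg (hc j) (h0 j))
          rw [Finset.mem_range] at hj ⊢; omega
  · refine Finset.sum_le_sum (fun j _ => ?_)
    calc c j * a j ≤ c j * 1 := mul_le_mul_of_nonneg_left (h1 j) (hc j)
      _ = c j := mul_one _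

theorem sum_odd (i : ℕ) : ∑ j ∈ Finset.range i, ((2 * j + 1 : ℕ) : ℝ) = (i : ℝ) ^ 2 := by
  induction i with
  | zero => simp
  | succ i ih => rw [Finset.sum_range_succ, ih]; push_cast; ring

end

end Pool.Agent.Helper192.HK
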