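import Mathlib
import Pool.Agent.Helper192.HK.D

set_option autoImplicit false
set_option linter.unusedSectionVars false

open Filter Topology

noncomputable section

namespace Pool.Agent.Helper192.HK

section

variable {X : Type*} [TopologicalSpace X] [CompactSpace X]
variable {H : Type*} [NormedAddCommGroup H] [InnerProductSpace ℂ H] [CompleteSpace H]

theorem riemann (S : C(X, ℂ) →L[ℂ] (H →L[ℂ] H)) (h : C(X, ℝ)) (h0 : ∀ x, 0 ≤ h x) (h1 : ∀ x, h x ≤ 1)
    (c : ℕ → ℝ) (hc : ∀ j, 0 ≤ c j) (m : ℕ) (hm : 0 < m) (F : C(X, ℝ)) (D : ℝ) (hD : 0 ≤ D)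
    (hF : ∀ x, ∀ i : ℕ, i ≤ m → (i : ℝ) ≤ m * h x → m * h x < i + 1 → ∀ y : ℝ,
      ∑ j ∈ Finset.range (i - 1), c j ≤ y → y ≤ ∑ j ∈ Finset.range i, c j → |F x - y| ≤ D) :
    ‖S (toC F) - ∑ j ∈ Finset.range m, (c j : ℂ) • sq S h (((j : ℝ) + 1) / m)‖ ≤ ‖S‖ * D := by
  have hm' : (0 : ℝ) < m := by exact_mod_cast hm
  have hlim : SSTend (fun n => S (toC F) + (-1 : ℂ) • ∑ j ∈ Finset.range m, (c j : ℂ) • S (toC (phi h (((j : ℝ) + 1) / m) n)))
      (S (toC F) + (-1 : ℂ) • ∑ j ∈ Finset.range m, (c j : ℂ) • sq S h (((j : ℝ) + 1) / m)) := by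
    refine (SSTend.const _).add (SSTend.smul ?_ _)
    exact SSTend.sum _ (fun j _ => (sq_spec S h _).smul _)
  have e1 : S (toC F) - ∑ j ∈ Finset.range m, (c j : ℂ) • sq S h (((j : ℝ) + 1) / m) =
      S (toC F) + (-1 : ℂ) • ∑ j ∈ Finset.range m, (c j : ℂ) • sq S h (((j : ℝ) + 1) / m) := by
    rw [neg_smul, one_smul, sub_eq_add_neg]
  rw [e1]
  refine hlim.norm_le _ (by positivity) ?_
  have hev : ∀ᶠ n : ℕ in atTop, (m : ℝ) ≤ (2 : ℝ) ^ n :=
    (tendsto_pow_atTop_atTop_of_one_lt one_lt_two).eventually_ge_atTop _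
  filter_upwards [hev] with n hn
  set G : C(X, ℝ) := F - ∑ j ∈ Finset.range m, c j • phi h (((j : ℝ) + 1) / m) n with hG
  have e2 : toC G = toC F - ∑ j ∈ Finset.range m, (c j : ℂ) • toC (phi h (((j : ℝ) + 1) / m) n) := by
    ext x
    simp [hG, ContinuousMap.sum_apply]
  have e3 : S (toC F) + (-1 : ℂ) • ∑ j ∈ Finset.range m, (c j : ℂ) • S (toC (phi h (((j : ℝ) + 1) / m) n)) = S (toC G) := by
    rw [e2, map_sub, map_sum, neg_smul, one_smul, sub_eq_add_neg]
    simp only [map_smul]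
  rw [e3]
  refine (S.le_opNorm _).trans ?_
  gcongr
  rw [ContinuousMap.norm_le _ hD]
  intro x
  rw [toC_apply, Complex.norm_real, Real.norm_eq_abs]
  have hGx : G x = F x - ∑ j ∈ Finset.range m, c j * phi h (((j : ℝ) + 1) / m) n x := by
    simp [hG, ContinuousMap.sum_apply]
  rw [hGx]
  have p0 : 0 ≤ (m : ℝ) * h x := mul_nonneg hm'.le (h0 x)
  set i : ℕ := ⌊(m : ℝ) * h x⌋₊ with hi
  have i1 : (i : ℝ) ≤ m * h x := Nat.floor_le p0
  have i2 : m * h x < i + 1 := Nat.lt_floor_add_one _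
  have i3 : i ≤ m := by
    have : (i : ℝ) ≤ m := i1.trans (by nlinarith [h1 x])
    exact_mod_cast this
  have hs := sum_between c (fun j => phi h (((j : ℝ) + 1) / m) n x) i m i3 hc (fun j => phi_nonneg _ _ _ _)
    (fun j => phi_le_one _ _ _ _) ?_ ?_
  · exact hF x i i3 i1 i2 _ hs.1 hs.2
  · intro j hj
    refine phi_eq_zero h _ n x ?_
    have : h x - ((j : ℝ) + 1) / m ≤ 0 := by
      rw [sub_nonpos, le_div_iff₀ hm']
      have : (i : ℝ) ≤ j := by exact_mod_cast hj
      linarith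
    have h2 : (0 : ℝ) < 2 ^ (n + 1) := by positivity
    nlinarith
  · intro j hj
    refine phi_eq_one h _ n x ?_
    have h3 : 1 / (m : ℝ) ≤ h x - ((j : ℝ) + 1) / m := by
      rw [le_sub_iff_add_le, ← add_div, div_le_iff₀ hm']
      have : (j : ℝ) + 2 ≤ i := by exact_mod_cast hj
      linarith
    have h2 : (0 : ℝ) < 2 ^ (n + 1) := by positivity
    calc (2 : ℝ) ≤ 2 ^ (n + 1) * (1 / m) := by
          rw [mul_one_div, le_div_iff₀ hm', pow_succ]
          linarith
      _ ≤ 2 ^ (n + 1) * (h x - ((j : ℝ) + 1) / m) := by gcongr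

theorem S_sq_unit (S : C(X, ℂ) →L[ℂ] (H →L[ℂ] H)) (hS1 : S 1 = 1) (M : ℝ) (hM : 0 ≤ M) (hI : HInv S M)
    (h : C(X, ℝ)) (h0 : ∀ x, 0 ≤ h x) (h1 : ∀ x, h x ≤ 1) : S (toC h * toC h) = S (toC h) * S (toC h) := by
  set K : ℝ := ‖S‖ with hK
  have hK0 : 0 ≤ K := norm_nonneg _
  set s : ℝ := ‖S (toC h)‖ with hs
  have hs0 : 0 ≤ s := norm_nonneg _
  -- the main estimate
  have main : ∀ m : ℕ, 0 < m → ‖S (toC h * toC h) - S (toC h) * S (toC h)‖ * m ≤ 4 * K + (s + 2 * K) * (2 * K) + 2 * K * s := by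
    intro m hm
    have hm' : (0 : ℝ) < m := by exact_mod_cast hm
    have hm1 : (1 : ℝ) ≤ m := by exact_mod_cast hm
    set q : ℕ → (H →L[ℂ] H) := fun j => sq S h (((j : ℝ) + 1) / m) with hq
    set Xm : H →L[ℂ] H := ∑ j ∈ Finset.range m, q j with hXm
    have a1 : ‖(m : ℂ) • S (toC h) - Xm‖ ≤ K * 2 := by
      have := riemann S h h0 h1 (fun _ => 1) (fun _ => zero_le_one) m hm ((m : ℝ) • h) 2 (by norm_num) ?_
      · have e1 : toC ((m : ℝ) • h) = (m : ℂ) • toC h := by ext x; simp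
        rw [e1, map_smul] at this
        simpa [hXm, hq] using this
      · intro x i hi i1 i2 y hy1 hy2
        simp only [Finset.sum_const, Finset.card_range, nsmul_eq_mul, mul_one] at hy1 hy2
        have : (i : ℝ) - 1 ≤ y := by
          rcases Nat.eq_zero_or_pos i with h | h
          · subst h; push_cast at hy1 ⊢; linarith
          · rw [Nat.cast_sub h] at hy1; push_cast at hy1; linarith
        simp only [ContinuousMap.smul_apply, smul_eq_mul]
        rw [abs_le]; constructor <;> linarith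
    have a2 : ‖((m : ℂ) ^ 2) • S (toC h * toC h) - Xm * Xm‖ ≤ K * (4 * m) := by
      have hidem := (sum_alg q (fun i => sq_idem S hS1 M hM hI h _) (fun i j hij => sq_comm S hS1 M hM hI h _ _ (by
        have : (i : ℝ) < j := by exact_mod_cast hij
        gcongr)) m).1
      rw [← hXm] at hidem
      rw [hidem]
      have := riemann S h h0 h1 (fun j => ((2 * j + 1 : ℕ) : ℝ)) (fun _ => Nat.cast_nonneg _) m hm (((m : ℝ) ^ 2) • (h * h)) (4 * m) (by positivity) ?_
      · have e1 : toC (((m : ℝ) ^ 2) • (h * h)) = ((m : ℂ) ^ 2) • (toC h * toC h) := by ext x; simp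
        rw [e1, map_smul] at this
        refine le_trans (le_of_eq ?_) this
        congr 2
        refine Finset.sum_congr rfl (fun j _ => ?_)
        rw [← nsmul_eq_mul, ← Nat.cast_smul_eq_nsmul ℂ]
        show ((2 * j + 1 : ℕ) : ℂ) • q j = (((2 * j + 1 : ℕ) : ℝ) : ℂ) • q j
        rw [Complex.ofReal_natCast]
      · intro x i hi i1 i2 y hy1 hy2
        rw [sum_odd] at hy1 hy2
        have hi' : (i : ℝ) ≤ m := by exact_mod_cast hi
        have hi0 : (0 : ℝ) ≤ i := Nat.cast_nonneg _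
        simp only [ContinuousMap.smul_apply, smul_eq_mul, ContinuousMap.mul_apply]
        have e1 : (m : ℝ) ^ 2 * (h x * h x) = (m * h x) ^ 2 := by ring
        rw [e1]
        have u1 : (i : ℝ) ^ 2 ≤ (m * h x) ^ 2 := by gcongr
        have u2 : (m * h x) ^ 2 ≤ ((i : ℝ) + 1) ^ 2 := by
          have : 0 ≤ (m : ℝ) * h x := hi0.trans i1
          gcongr
        rcases Nat.eq_zero_or_pos i with h | h
        · subst h
          rw [Nat.cast_zero, zero_add, one_pow] at u2
          rw [Nat.cast_zero] at hy2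
          have hy1' : 0 ≤ y := by simpa using hy1
          have hy2' : y ≤ 0 := by simpa using hy2
          have u3 : 0 ≤ ((m : ℝ) * h x) ^ 2 := sq_nonneg _
          rw [abs_le]; constructor <;> linarith
        · rw [Nat.cast_sub h] at hy1; push_cast at hy1
          rw [abs_le]; constructor <;> nlinarith
    have a3 : ‖Xm‖ ≤ m * s + 2 * K := by
      calc ‖Xm‖ = ‖(m : ℂ) • S (toC h) - ((m : ℂ) • S (toC h) - Xm)‖ := by congr 1; abel
        _ ≤ ‖(m : ℂ) • S (toC h)‖ + ‖(m : ℂ) • S (toC h) - Xm‖ := norm_sub_le _ _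
        _ ≤ m * s + 2 * K := by
            rw [norm_smul, Complex.norm_natCast]
            linarith
    have a4 : ‖((m : ℂ) ^ 2) • (S (toC h * toC h) - S (toC h) * S (toC h))‖ ≤
        K * (4 * m) + ((m * s + 2 * K) * (K * 2) + (K * 2) * (m * s)) := by
      have e1 : ((m : ℂ) ^ 2) • (S (toC h * toC h) - S (toC h) * S (toC h)) =
          (((m : ℂ) ^ 2) • S (toC h * toC h) - Xm * Xm) +
          (-(Xm * ((m : ℂ) • S (toC h) - Xm)) - ((m : ℂ) • S (toC h) - Xm) * ((m : ℂ) • S (toC h))) := by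
        have e2 : ((m : ℂ) • S (toC h)) * ((m : ℂ) • S (toC h)) = ((m : ℂ) ^ 2) • (S (toC h) * S (toC h)) := by
          rw [smul_mul_smul_comm, pow_two]
        have e3 : ∀ (A a Z : H →L[ℂ] H), A - a * a = (A - Z * Z) + (-(Z * (a - Z)) - (a - Z) * a) := by
          intro A a Z; noncomm_ring
        rw [smul_sub, ← e2]
        exact e3 _ _ _
      rw [e1]
      refine (norm_add_le _ _).trans (add_le_add a2 ((norm_sub_le _ _).trans (add_le_add ?_ ?_)))
      · rw [norm_neg]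
        exact (norm_mul_le _ _).trans (mul_le_mul a3 a1 (norm_nonneg _) (by positivity))
      · refine (norm_mul_le _ _).trans (mul_le_mul a1 ?_ (norm_nonneg _) (by positivity))
        rw [norm_smul, Complex.norm_natCast]
    rw [norm_smul, norm_pow, Complex.norm_natCast] at a4
    have a5 : (m : ℝ) * (‖S (toC h * toC h) - S (toC h) * S (toC h)‖ * m) ≤
        (m : ℝ) * (4 * K + (s + 2 * K) * (2 * K) + 2 * K * s) := by
      have : (2 * K) * (K * 2) ≤ (m : ℝ) * ((2 * K) * (K * 2)) := by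
        have : 0 ≤ (2 * K) * (K * 2) := by positivity
        nlinarith
      nlinarith
    exact le_of_mul_le_mul_left a5 hm'
  have hz : ‖S (toC h * toC h) - S (toC h) * S (toC h)‖ = 0 := by
    by_contra hne
    have hpos : 0 < ‖S (toC h * toC h) - S (toC h) * S (toC h)‖ := lt_of_le_of_ne (norm_nonneg _) (Ne.symm hne)
    obtain ⟨m, hm⟩ := exists_nat_gt ((4 * K + (s + 2 * K) * (2 * K) + 2 * K * s) / ‖S (toC h * toC h) - S (toC h) * S (toC h)‖)
    have hmpos : 0 < m := by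
      have : 0 ≤ (4 * K + (s + 2 * K) * (2 * K) + 2 * K * s) / ‖S (toC h * toC h) - S (toC h) * S (toC h)‖ := by positivity
      have : (0 : ℝ) < m := lt_of_le_of_lt this hm
      exact_mod_cast this
    rw [div_lt_iff₀ hpos] at hm
    have := main m hmpos
    linarith
  exact sub_eq_zero.mp (norm_eq_zero.mp hz)

/-- the conclusion for all real functions -/
theorem S_sq (S : C(X, ℂ) →L[ℂ] (H →L[ℂ] H)) (hS1 : S 1 = 1) (M : ℝ) (hM : 0 ≤ M) (hI : HInv S M)
    (h : C(X, ℝ)) : S (toC h * toC h) = S (toC h) * S (toC h) := by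
  set c : ℝ := ‖h‖ + 1 with hc
  have hc0 : 0 < c := by have := norm_nonneg h; linarith
  set k : C(X, ℝ) := (2 * c)⁻¹ • (h + c • (1 : C(X, ℝ))) with hk
  have hb : ∀ x, |h x| ≤ c := fun x => (ContinuousMap.norm_coe_le_norm h x).trans (by linarith)
  have hkx : ∀ x, k x = (2 * c)⁻¹ * (h x + c) := by intro x; simp [hk]; ring
  have k0 : ∀ x, 0 ≤ k x := by
    intro x
    rw [hkx]
    have := (abs_le.mp (hb x)).1
    exact mul_nonneg (by positivity) (by linarith)
  have k1 : ∀ x, k x ≤ 1 := by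
    intro x
    rw [hkx, inv_mul_le_iff₀ (by positivity)]
    have := (abs_le.mp (hb x)).2
    linarith
  have key := S_sq_unit S hS1 M hM hI k k0 k1
  have e1 : toC h = ((2 * c : ℝ) : ℂ) • toC k - (c : ℂ) • 1 := by
    ext x
    simp only [toC_apply, ContinuousMap.sub_apply, ContinuousMap.smul_apply, ContinuousMap.one_apply, smul_eq_mul, mul_one, hkx]
    push_cast
    have hcC : (c : ℂ) ≠ 0 := by exact_mod_cast hc0.ne'
    field_simp
    ring
  rw [e1]
  have e2 : (((2 * c : ℝ) : ℂ) • toC k - (c : ℂ) • (1 : C(X, ℂ))) * (((2 * c : ℝ) : ℂ) • toC k - (c : ℂ) • (1 : C(X, ℂ))) =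
      (((2 * c : ℝ) : ℂ) * ((2 * c : ℝ) : ℂ)) • (toC k * toC k) - (2 * ((2 * c : ℝ) : ℂ) * (c : ℂ)) • toC k + ((c : ℂ) * (c : ℂ)) • 1 := by
    ext x
    simp
    ring
  rw [e2, map_add, map_sub, map_sub]
  simp only [map_smul, key, hS1]
  have e3 : ∀ (u v : ℂ) (a : H →L[ℂ] H), (u • a - v • 1) * (u • a - v • 1) = (u * u) • (a * a) - (2 * u * v) • a + (v * v) • 1 := by
    intro u v a
    rw [sub_mul, mul_sub, mul_sub, smul_mul_smul_comm, smul_mul_smul_comm, smul_mul_smul_comm, smul_mul_smul_comm, mul_one, one_mul, mul_one]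
    have : (2 * u * v) • a = (u * v) • a + (v * u) • a := by rw [← add_smul]; congr 1; ring
    rw [this]
    abel
  rw [e3]

end

end Pool.Agent.Helper192.HK
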