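import Mathlib

set_option autoImplicit false
set_option linter.unusedSectionVars false

open Filter Topology

noncomputable section

namespace Pool.Agent.Helper192.HK

section Radius

variable {B : Type*} [NormedRing B] [NormedAlgebra ℂ B] [CompleteSpace B]

theorem exists_pow_lt (a : B) (α : ℝ) (hα : 0 < α) (h : spectralRadius ℂ a < ENNReal.ofReal α) :
    ∃ k : ℕ, ‖a ^ (2 ^ k)‖ < α ^ (2 ^ k) := by
  have h1 := spectrum.pow_norm_pow_one_div_tendsto_nhds_spectralRadius a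
  have h2 := h1.eventually (gt_mem_nhds h)
  have h3 : Tendsto (fun k : ℕ => 2 ^ k) atTop atTop := tendsto_pow_atTop_atTop_of_one_lt one_lt_two
  obtain ⟨k, hk⟩ := (h3.eventually h2).exists
  refine ⟨k, ?_⟩
  rw [ENNReal.ofReal_lt_ofReal_iff hα] at hk
  have hn : (2 ^ k : ℕ) ≠ 0 := by positivity
  calc ‖a ^ (2 ^ k)‖ = (‖a ^ (2 ^ k)‖ ^ (((2 ^ k : ℕ) : ℝ)⁻¹)) ^ (2 ^ k) :=
        (Real.rpow_inv_natCast_pow (norm_nonneg _) hn).symm
    _ < α ^ (2 ^ k) := by
      refine pow_lt_pow_left₀ ?_ (Real.rpow_nonneg (norm_nonneg _) _) hn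
      simpa [one_div] using hk

theorem pow_succ_lt (a : B) (α : ℝ) (k : ℕ) (h : ‖a ^ (2 ^ k)‖ < α ^ (2 ^ k)) :
    ‖a ^ (2 ^ (k + 1))‖ < α ^ (2 ^ (k + 1)) := by
  rw [pow_succ, pow_mul, pow_mul, pow_two, pow_two]
  calc ‖a ^ 2 ^ k * a ^ 2 ^ k‖ ≤ ‖a ^ 2 ^ k‖ * ‖a ^ 2 ^ k‖ := norm_mul_le _ _
    _ < α ^ 2 ^ k * α ^ 2 ^ k := mul_self_lt_mul_self (norm_nonneg _) h

theorem dini {W : Type*} [TopologicalSpace W] [CompactSpace W] (P : W → B) (hP : Continuous P) (α : ℝ) (hα : 0 < α)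
    (h : ∀ w, spectralRadius ℂ (P w) < ENNReal.ofReal α) :
    ∃ k : ℕ, ∀ j, k ≤ j → ∀ w, ‖P w ^ (2 ^ j)‖ < α ^ (2 ^ j) := by
  set U : ℕ → Set W := fun k => {w | ‖P w ^ (2 ^ k)‖ < α ^ (2 ^ k)} with hU
  have hmono : Monotone U := monotone_nat_of_le_succ (fun k w hw => pow_succ_lt _ _ k hw)
  have hopen : ∀ k, IsOpen (U k) := fun k => isOpen_lt (by fun_prop) continuous_const
  have hcov : Set.univ ⊆ ⋃ k, U k := fun w _ => Set.mem_iUnion.mpr (exists_pow_lt _ _ hα (h w))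
  obtain ⟨k, hk⟩ := isCompact_univ.elim_directed_cover U hopen hcov (hmono.directed_le)
  exact ⟨k, fun j hj w => hmono hj (hk (Set.mem_univ w))⟩

theorem radius_le_of_pow [NormOneClass B] (a : B) (N : ℕ) (hN : 0 < N) (C : ℝ) (hC : 0 ≤ C) (h : ‖a ^ N‖ ≤ C ^ N) :
    spectralRadius ℂ a ≤ ENNReal.ofReal C := by
  refine iSup₂_le (fun l hl => ?_)
  have h1 : l ^ N ∈ spectrum ℂ (a ^ N) := spectrum.pow_mem_pow a N hl
  have h2 := (spectrum.norm_le_norm_of_mem h1).trans h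
  rw [norm_pow] at h2
  have h3 : ‖l‖ ≤ C := le_of_pow_le_pow_left₀ hN.ne' hC h2
  have h4 : ENNReal.ofReal ‖l‖ ≤ ENNReal.ofReal C := ENNReal.ofReal_le_ofReal h3
  rwa [ofReal_norm] at h4

theorem three_circles [NormOneClass B] (P : ℂ → B) (hP : Differentiable ℂ P) (R α ε : ℝ) (hR : 1 < R) (hα : 0 < α) (hε : 0 < ε)
    (h1 : ∀ w, ‖w‖ = R → spectralRadius ℂ (P w) < ENNReal.ofReal α)
    (h2 : ∀ w, ‖w‖ = R⁻¹ → spectralRadius ℂ (P w) < ENNReal.ofReal ε) :
    spectralRadius ℂ (P 1) ≤ ENNReal.ofReal (√(α * ε)) := by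
  have hR0 : 0 < R := by linarith
  have hR1 : R⁻¹ < 1 := inv_lt_one_of_one_lt₀ hR
  have hRi : 0 < R⁻¹ := by positivity
  have c1 : CompactSpace (Metric.sphere (0 : ℂ) R) := isCompact_iff_compactSpace.mp (isCompact_sphere _ _)
  have c2 : CompactSpace (Metric.sphere (0 : ℂ) R⁻¹) := isCompact_iff_compactSpace.mp (isCompact_sphere _ _)
  obtain ⟨k1, hk1⟩ := dini (fun w : Metric.sphere (0 : ℂ) R => P w) (hP.continuous.comp continuous_subtype_val) α hα
    (fun w => h1 w (by simpa using w.2))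
  obtain ⟨k2, hk2⟩ := dini (fun w : Metric.sphere (0 : ℂ) R⁻¹ => P w) (hP.continuous.comp continuous_subtype_val) ε hε
    (fun w => h2 w (by simpa using w.2))
  set N : ℕ := 2 ^ (max k1 k2) with hN
  have hN0 : 0 < N := by positivity
  have b1 : ∀ w : ℂ, ‖w‖ = R → ‖P w ^ N‖ ≤ α ^ N := fun w hw => (hk1 _ (le_max_left _ _) ⟨w, by simpa using hw⟩).le
  have b2 : ∀ w : ℂ, ‖w‖ = R⁻¹ → ‖P w ^ N‖ ≤ ε ^ N := fun w hw => (hk2 _ (le_max_right _ _) ⟨w, by simpa using hw⟩).le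
  obtain ⟨l, hl1, hl2⟩ := exists_dual_vector'' ℂ (P 1 ^ N)
  set f : ℂ → ℂ := fun w => l (P w ^ N) * l (P w⁻¹ ^ N) with hf
  set U : Set ℂ := {w | R⁻¹ < ‖w‖ ∧ ‖w‖ < R} with hU
  have hUo : IsOpen U := (isOpen_lt continuous_const continuous_norm).inter (isOpen_lt continuous_norm continuous_const)
  have hUc : closure U ⊆ {w | R⁻¹ ≤ ‖w‖ ∧ ‖w‖ ≤ R} := by
    refine closure_minimal (fun w hw => ⟨hw.1.le, hw.2.le⟩) ?_
    exact (isClosed_le continuous_const continuous_norm).inter (isClosed_le continuous_norm continuous_const)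
  have hUb : Bornology.IsBounded U := by
    refine (Metric.isBounded_closedBall (x := (0 : ℂ)) (r := R)).subset (fun w hw => ?_)
    simpa using hw.2.le
  have hd : DiffContOnCl ℂ f U := by
    refine DifferentiableOn.diffContOnCl ?_
    intro w hw
    have hw' := hUc hw
    have hw0 : w ≠ 0 := by
      intro h0
      have := hw'.1
      rw [h0, norm_zero] at this
      linarith
    refine DifferentiableAt.differentiableWithinAt ?_
    have d1 : DifferentiableAt ℂ (fun w => l (P w ^ N)) w := l.differentiableAt.comp w ((hP w).pow N)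
    have d2 : DifferentiableAt ℂ (fun w => l (P w⁻¹ ^ N)) w :=
      l.differentiableAt.comp w (((hP w⁻¹).comp w (differentiableAt_inv hw0)).pow N)
    exact d1.mul d2
  have hlb : ∀ z : B, ‖l z‖ ≤ ‖z‖ := fun z => by simpa using l.le_of_opNorm_le hl1 z
  have hfr : ∀ w ∈ frontier U, ‖f w‖ ≤ (α * ε) ^ N := by
    intro w hw
    rw [hUo.frontier_eq] at hw
    have hw1 := hUc hw.1
    have hw2 : ¬ (R⁻¹ < ‖w‖ ∧ ‖w‖ < R) := hw.2
    have hcase : ‖w‖ = R ∨ ‖w‖ = R⁻¹ := by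
      by_contra hcon
      push Not at hcon
      exact hw2 ⟨lt_of_le_of_ne hw1.1 (Ne.symm hcon.2), lt_of_le_of_ne hw1.2 hcon.1⟩
    simp only [hf, norm_mul]
    rcases hcase with h | h
    · calc ‖l (P w ^ N)‖ * ‖l (P w⁻¹ ^ N)‖ ≤ α ^ N * ε ^ N :=
            mul_le_mul ((hlb _).trans (b1 w h)) ((hlb _).trans (b2 _ (by rw [norm_inv, h]))) (norm_nonneg _) (by positivity)
        _ = (α * ε) ^ N := (mul_pow _ _ _).symm
    · calc ‖l (P w ^ N)‖ * ‖l (P w⁻¹ ^ N)‖ ≤ ε ^ N * α ^ N :=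
            mul_le_mul ((hlb _).trans (b2 w h)) ((hlb _).trans (b1 _ (by rw [norm_inv, h, inv_inv]))) (norm_nonneg _) (by positivity)
        _ = (α * ε) ^ N := by rw [mul_comm, mul_pow]
  have h1U : (1 : ℂ) ∈ closure U := subset_closure ⟨by simpa using hR1, by simpa using hR⟩
  have key := Complex.norm_le_of_forall_mem_frontier_norm_le hUb hd hfr h1U
  have hf1 : f 1 = ((‖P 1 ^ N‖ : ℝ) : ℂ) ^ 2 := by
    simp only [hf, inv_one]
    rw [hl2, ← pow_two]
    rfl
  rw [hf1, norm_pow, Complex.norm_real, norm_norm] at key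
  refine radius_le_of_pow _ N hN0 _ (Real.sqrt_nonneg _) ?_
  refine le_of_pow_le_pow_left₀ two_ne_zero (by positivity) (key.trans (le_of_eq ?_))
  rw [← pow_mul, mul_comm N 2, pow_mul, Real.sq_sqrt (by positivity)]

theorem qn_of {a : B} (h : ∀ η : ℝ, 0 < η → spectralRadius ℂ a ≤ ENNReal.ofReal η) : spectralRadius ℂ a = 0 := by
  by_contra hne
  have h1 : spectralRadius ℂ a ≠ ⊤ := ne_top_of_le_ne_top ENNReal.ofReal_ne_top (h 1 one_pos)
  have h2 : 0 < (spectralRadius ℂ a).toReal := ENNReal.toReal_pos hne h1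
  have h3 := h ((spectralRadius ℂ a).toReal / 2) (by positivity)
  have h4 := ENNReal.toReal_mono ENNReal.ofReal_ne_top h3
  rw [ENNReal.toReal_ofReal (by positivity)] at h4
  linarith

theorem radius_nhds [NormOneClass B] (c : B) (hc : spectralRadius ℂ c = 0) (ε : ℝ) (hε : 0 < ε) :
    ∃ δ > 0, ∀ z : B, ‖z - c‖ < δ → spectralRadius ℂ z < ENNReal.ofReal ε := by
  obtain ⟨k, hk⟩ := exists_pow_lt c (ε / 2) (by positivity) (by rw [hc]; exact ENNReal.ofReal_pos.mpr (by positivity))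
  have ho : IsOpen {z : B | ‖z ^ (2 ^ k)‖ < (ε / 2) ^ (2 ^ k)} := isOpen_lt (by fun_prop) continuous_const
  obtain ⟨δ, hδ, hball⟩ := Metric.isOpen_iff.mp ho c hk
  refine ⟨δ, hδ, fun z hz => ?_⟩
  have h1 : ‖z ^ (2 ^ k)‖ < (ε / 2) ^ (2 ^ k) := hball (by rwa [Metric.mem_ball, dist_eq_norm])
  have h2 := radius_le_of_pow z (2 ^ k) (by positivity) (ε / 2) (by positivity) h1.le
  exact lt_of_le_of_lt h2 ((ENNReal.ofReal_lt_ofReal_iff hε).mpr (by linarith))

theorem radius_eq_zero_iff {a : B} : spectralRadius ℂ a = 0 ↔ ∀ l ∈ spectrum ℂ a, l = 0 := by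
  unfold spectralRadius
  simp only [ENNReal.iSup_eq_zero, ENNReal.coe_eq_zero, nnnorm_eq_zero]

end Radius

section Main

variable {A B : Type*} [NormedRing A] [NormedAlgebra ℂ A] [CompleteSpace A] [NormOneClass A]
variable [NormedRing B] [NormedAlgebra ℂ B] [CompleteSpace B] [NormOneClass B]

theorem spec_sub (T : A →ₗ[ℂ] B) (h1 : T 1 = 1) (hT : ∀ a, IsUnit a → IsUnit (T a)) (x : A) :
    spectrum ℂ (T x) ⊆ spectrum ℂ x := by
  intro l hl
  rw [spectrum.mem_iff] at hl ⊢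
  intro hu
  apply hl
  have := hT _ hu
  rwa [map_sub, Algebra.algebraMap_eq_smul_one, map_smul, h1, ← Algebra.algebraMap_eq_smul_one] at this

theorem ofReal_norm' {E : Type*} [SeminormedAddGroup E] (x : E) : ENNReal.ofReal ‖x‖ = (‖x‖₊ : ENNReal) := ofReal_norm x

theorem radius_le_norm (x : A) : spectralRadius ℂ x ≤ ENNReal.ofReal ‖x‖ := by
  have := spectrum.spectralRadius_le_nnnorm (𝕜 := ℂ) x
  rwa [← ofReal_norm'] at this

theorem radius_T (T : A →ₗ[ℂ] B) (h1 : T 1 = 1) (hT : ∀ a, IsUnit a → IsUnit (T a)) (x : A) :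
    spectralRadius ℂ (T x) ≤ ENNReal.ofReal ‖x‖ := by
  refine le_trans ?_ (radius_le_norm x)
  exact iSup₂_le (fun l hl => le_iSup₂_of_le l (spec_sub T h1 hT x hl) le_rfl)

theorem ransford (T : A →ₗ[ℂ] B) (hs : Function.Surjective T) (h1 : T 1 = 1) (hT : ∀ a, IsUnit a → IsUnit (T a))
    (x : ℕ → A) (b : B) (hx : Tendsto x atTop (𝓝 0)) (hb : Tendsto (fun n => T (x n)) atTop (𝓝 b)) (c : B)
    (hc : spectralRadius ℂ c = 0) : spectralRadius ℂ (b + c) = 0 := by
  obtain ⟨y, hy⟩ := hs (b + c)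
  set C0 : ℝ := ‖y‖ + 2 with hC0
  have hC0p : 0 < C0 := by positivity
  refine qn_of (fun η hη => ?_)
  set ε : ℝ := η ^ 2 / C0 with hε
  have hεp : 0 < ε := by positivity
  obtain ⟨δ, hδ, hball⟩ := radius_nhds c hc ε hεp
  set R : ℝ := 2 + 2 * (‖b‖ + 1) / δ with hR
  have hR1 : 1 < R := by
    have : 0 ≤ 2 * (‖b‖ + 1) / δ := by positivity
    linarith
  have hRp : 0 < R := by linarith
  have hRd : R⁻¹ * (‖b‖ + 1) < δ / 2 := by
    rw [inv_mul_lt_iff₀ hRp]
    have : R * (δ / 2) = δ + (‖b‖ + 1) := by rw [hR]; field_simp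
    rw [this]; linarith
  have e1 : ∀ᶠ n in atTop, (R + 1) * ‖x n‖ < 1 := by
    have : Tendsto (fun n => (R + 1) * ‖x n‖) atTop (𝓝 ((R + 1) * ‖(0 : A)‖)) := (hx.norm).const_mul _
    rw [norm_zero, mul_zero] at this
    exact this.eventually (gt_mem_nhds one_pos)
  have e2 : ∀ᶠ n in atTop, ‖T (x n)‖ < ‖b‖ + 1 := (hb.norm).eventually (gt_mem_nhds (by linarith))
  have e3 : ∀ᶠ n in atTop, ‖b - T (x n)‖ < δ / 2 := by
    have : Tendsto (fun n => ‖b - T (x n)‖) atTop (𝓝 ‖b - b‖) := (tendsto_const_nhds.sub hb).norm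
    rw [sub_self, norm_zero] at this
    exact this.eventually (gt_mem_nhds (by positivity))
  obtain ⟨n, hn1, hn2, hn3⟩ := (e1.and (e2.and e3)).exists
  set P : ℂ → B := fun w => (b + c - T (x n)) + w • T (x n) with hP
  have hPd : Differentiable ℂ P := by
    have : Differentiable ℂ (fun w : ℂ => w • T (x n)) := differentiable_id.smul_const _
    exact this.const_add _
  have hPT : ∀ w, P w = T (y + (w - 1) • x n) := by
    intro w
    rw [map_add, map_smul, hy, sub_smul, one_smul]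
    simp only [hP]; abel
  have key := three_circles P hPd R C0 ε hR1 hC0p hεp ?_ ?_
  · have hP1 : P 1 = b + c := by simp [hP]
    rw [hP1] at key
    have : C0 * ε = η ^ 2 := by rw [hε]; field_simp
    rwa [this, Real.sqrt_sq hη.le] at key
  · intro w hw
    rw [hPT]
    refine lt_of_le_of_lt (radius_T T h1 hT _) ((ENNReal.ofReal_lt_ofReal_iff hC0p).mpr ?_)
    have : ‖w - 1‖ ≤ R + 1 := by
      calc ‖w - 1‖ ≤ ‖w‖ + ‖(1 : ℂ)‖ := norm_sub_le _ _
        _ = R + 1 := by rw [hw, norm_one]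
    calc ‖y + (w - 1) • x n‖ ≤ ‖y‖ + ‖(w - 1) • x n‖ := norm_add_le _ _
      _ = ‖y‖ + ‖w - 1‖ * ‖x n‖ := by rw [norm_smul]
      _ ≤ ‖y‖ + (R + 1) * ‖x n‖ := by gcongr
      _ < C0 := by rw [hC0]; linarith
  · intro w hw
    refine hball _ ?_
    have : P w - c = (b - T (x n)) + w • T (x n) := by simp only [hP]; abel
    rw [this]
    calc ‖(b - T (x n)) + w • T (x n)‖ ≤ ‖b - T (x n)‖ + ‖w • T (x n)‖ := norm_add_le _ _
      _ = ‖b - T (x n)‖ + R⁻¹ * ‖T (x n)‖ := by rw [norm_smul, hw]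
      _ < δ / 2 + δ / 2 := by
          have : R⁻¹ * ‖T (x n)‖ ≤ R⁻¹ * (‖b‖ + 1) := by gcongr
          linarith
      _ = δ := by ring

theorem radius_comm (b : B) (hb : ∀ c : B, spectralRadius ℂ c = 0 → spectralRadius ℂ (b + c) = 0) (k : B) :
    spectralRadius ℂ (b * k - k * b) = 0 := by
  have hb0 : spectralRadius ℂ b = 0 := by
    have := hb 0 (by rw [radius_eq_zero_iff]; intro l hl; by_contra h; rw [spectrum.mem_iff] at hl; exact hl (by
      rw [sub_zero]; exact (IsUnit.mk0 l h).map (algebraMap ℂ B)))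
    rwa [add_zero] at this
  set ρ : ℝ := (2 * (‖k‖ + 1))⁻¹ with hρ
  have hρp : 0 < ρ := by positivity
  have hunit : ∀ s : ℂ, ‖s‖ ≤ ρ → IsUnit (1 + s • k) := by
    intro s hs
    have h1 : ‖-(s • k)‖ < 1 := by
      rw [norm_neg, norm_smul]
      calc ‖s‖ * ‖k‖ ≤ ρ * ‖k‖ := by gcongr
        _ < 1 := by
          rw [hρ, inv_mul_lt_iff₀ (by positivity)]
          linarith [norm_nonneg k]
    have := (Units.oneSub (-(s • k)) h1).isUnit
    simpa using this
  set G : ℂ → B := fun s => (b * k - k * b) * Ring.inverse (1 + s • k) with hG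
  have hG0 : G 0 = b * k - k * b := by simp [hG]
  have hGr : ∀ s : ℂ, s ≠ 0 → ‖s‖ ≤ ρ → spectralRadius ℂ (G s) = 0 := by
    intro s hs0 hs
    obtain ⟨u, hu⟩ := hunit s hs
    have e1 : G s = (b * k - k * b) * (↑u⁻¹ : B) := by
      simp only [hG]
      rw [← hu, Ring.inverse_unit]
    have e2 : b + (-((u : B) * b * (↑u⁻¹ : B))) = s • G s := by
      rw [e1]
      have h1 : b = b * (u : B) * (↑u⁻¹ : B) := by rw [mul_assoc, Units.mul_inv, mul_one]
      have h2 : s • ((b * k - k * b) * (↑u⁻¹ : B)) = (b * (u : B) - (u : B) * b) * (↑u⁻¹ : B) := by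
        rw [hu, ← smul_mul_assoc]
        congr 1
        rw [mul_add, add_mul, mul_one, one_mul, smul_sub, mul_smul_comm, smul_mul_assoc]
        abel
      rw [h2, sub_mul, ← h1, sub_eq_add_neg]
    have e3 : spectralRadius ℂ (-((u : B) * b * (↑u⁻¹ : B))) = 0 := by
      rw [radius_eq_zero_iff] at hb0 ⊢
      intro l hl
      rw [← spectrum.neg_eq, Set.mem_neg, spectrum.units_conjugate] at hl
      exact neg_eq_zero.mp (hb0 _ hl)
    have e4 := hb _ e3
    rw [e2] at e4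
    rw [radius_eq_zero_iff] at e4 ⊢
    intro l hl
    have h5 : (Units.mk0 s hs0) • l ∈ spectrum ℂ ((Units.mk0 s hs0) • G s) := spectrum.smul_mem_smul_iff.mpr hl
    have h6 := e4 _ h5
    have h7 : s * l = 0 := h6
    rcases mul_eq_zero.mp h7 with h | h
    · exact absurd h hs0
    · exact h
  have hGd : ∀ s : ℂ, ‖s‖ ≤ ρ → DifferentiableAt ℂ G s := by
    intro s hs
    have d1 : DifferentiableAt ℂ (fun s : ℂ => Ring.inverse (1 + s • k)) s := by
      have := differentiableAt_inverse (𝕜 := ℂ) (hunit s hs)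
      have hin : DifferentiableAt ℂ (fun s : ℂ => 1 + s • k) s := (differentiableAt_id.smul_const _).const_add _
      exact DifferentiableAt.comp (f := fun s : ℂ => 1 + s • k) s this hin
    exact d1.const_mul _
  refine qn_of (fun η hη => ?_)
  have c1 : CompactSpace (Metric.sphere (0 : ℂ) ρ) := isCompact_iff_compactSpace.mp (isCompact_sphere _ _)
  obtain ⟨j, hj⟩ := dini (fun w : Metric.sphere (0 : ℂ) ρ => G w) (by
    rw [continuous_iff_continuousAt]
    intro w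
    have hw : ‖(w : ℂ)‖ ≤ ρ := by simpa using w.2.le
    exact ((hGd w hw).continuousAt).comp continuous_subtype_val.continuousAt) η hη (by
      intro w
      have hw : ‖(w : ℂ)‖ = ρ := by simpa using w.2
      rw [hGr w (by intro h0; rw [h0, norm_zero] at hw; linarith) hw.le]
      exact ENNReal.ofReal_pos.mpr hη)
  have hj' := hj j le_rfl
  rw [← hG0]
  refine radius_le_of_pow _ (2 ^ j) (by positivity) η hη.le ?_
  have hd : DiffContOnCl ℂ (fun s => G s ^ (2 ^ j)) (Metric.ball 0 ρ) := by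
    refine DifferentiableOn.diffContOnCl ?_
    intro s hs
    rw [closure_ball _ hρp.ne'] at hs
    exact ((hGd s (by simpa using hs)).pow _).differentiableWithinAt
  refine Complex.norm_le_of_forall_mem_frontier_norm_le Metric.isBounded_ball hd ?_ (subset_closure (Metric.mem_ball_self hρp))
  intro z hz
  rw [frontier_ball _ hρp.ne'] at hz
  exact (hj' ⟨z, hz⟩).le

end Main

section CStar

variable {A B : Type*} [NormedRing A] [NormedAlgebra ℂ A] [CompleteSpace A] [NormOneClass A]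
variable [CStarAlgebra B] [NormOneClass B]

theorem T_continuous (T : A →ₗ[ℂ] B) (hs : Function.Surjective T) (h1 : T 1 = 1) (hT : ∀ a, IsUnit a → IsUnit (T a)) :
    Continuous T := by
  refine T.continuous_of_seq_closed_graph ?_
  intro u x y hu hy
  set b : B := y - T x with hb
  have h2 : Tendsto (fun n => u n - x) atTop (𝓝 0) := by
    have := hu.sub (tendsto_const_nhds (x := x))
    rwa [sub_self] at this
  have h3 : Tendsto (fun n => T (u n - x)) atTop (𝓝 b) := by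
    simp only [map_sub]
    exact hy.sub tendsto_const_nhds
  have hr : ∀ c : B, spectralRadius ℂ c = 0 → spectralRadius ℂ (b + c) = 0 := fun c hc => ransford T hs h1 hT _ b h2 h3 c hc
  have hcomm := radius_comm b hr (star b)
  have hsa : IsSelfAdjoint (b * star b - star b * b) := by
    rw [isSelfAdjoint_iff]; simp
  rw [hsa.spectralRadius_eq_nnnorm, ENNReal.coe_eq_zero, nnnorm_eq_zero, sub_eq_zero] at hcomm
  have hn : IsStarNormal b := ⟨hcomm.symm⟩
  have hb0 : spectralRadius ℂ b = 0 := by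
    have := hr 0 (by rw [radius_eq_zero_iff]; intro l hl; by_contra h; rw [spectrum.mem_iff] at hl; exact hl (by
      rw [sub_zero]; exact (IsUnit.mk0 l h).map (algebraMap ℂ B)))
    rwa [add_zero] at this
  rw [IsStarNormal.spectralRadius_eq_nnnorm, ENNReal.coe_eq_zero, nnnorm_eq_zero] at hb0
  exact sub_eq_zero.mp hb0

/-- the key estimate -/
theorem inv_bound (T : A →ₗ[ℂ] B) (hs : Function.Surjective T) (h1 : T 1 = 1) (hT : ∀ a, IsUnit a → IsUnit (T a)) :
    ∃ K : ℝ, 0 < K ∧ ∀ a g : A, a * g = 1 → g * a = 1 → ∃ r : B, T a * r = 1 ∧ r * T a = 1 ∧ ‖r‖ ≤ K * ‖g‖ := by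
  set TL : A →L[ℂ] B := ⟨T, T_continuous T hs h1 hT⟩ with hTL
  obtain ⟨K, hK, hKp⟩ := TL.exists_preimage_norm_le hs
  refine ⟨K, hK, ?_⟩
  intro a g hag hga
  obtain ⟨r, hr1, hr2⟩ : ∃ r : B, T a * r = 1 ∧ r * T a = 1 := by
    obtain ⟨u, hu⟩ := hT a ⟨⟨a, g, hag, hga⟩, rfl⟩
    exact ⟨(↑u⁻¹ : B), by rw [← hu, Units.mul_inv], by rw [← hu, Units.inv_mul]⟩
  refine ⟨r, hr1, hr2, ?_⟩
  obtain ⟨v, hv, hvn⟩ := hKp (star r)
  have hTv : T v = star r := hv
  rw [norm_star] at hvn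
  -- spectrum inclusion
  have hspec : spectrum ℂ (r * star r) ⊆ spectrum ℂ (g * v) := by
    intro l hl
    rw [spectrum.mem_iff] at hl ⊢
    intro hu
    apply hl
    have hu2 : IsUnit (l • a - v) := by
      have e1 : l • a - v = a * (algebraMap ℂ A l - g * v) := by
        rw [mul_sub, ← mul_assoc, hag, one_mul, Algebra.algebraMap_eq_smul_one, mul_smul_comm, mul_one]
      rw [e1]
      exact IsUnit.mul ⟨⟨a, g, hag, hga⟩, rfl⟩ hu
    have hu3 := hT _ hu2
    rw [map_sub, map_smul, hTv] at hu3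
    have e2 : algebraMap ℂ B l - r * star r = r * (l • T a - star r) := by
      rw [mul_sub, mul_smul_comm, hr2, Algebra.algebraMap_eq_smul_one]
    rw [e2]
    exact IsUnit.mul ⟨⟨r, T a, hr2, hr1⟩, rfl⟩ hu3
  have hrad : spectralRadius ℂ (r * star r) ≤ ENNReal.ofReal ‖g * v‖ := by
    refine le_trans ?_ (radius_le_norm (g * v))
    exact iSup₂_le (fun l hl => le_iSup₂_of_le l (hspec hl) le_rfl)
  have hsa : IsSelfAdjoint (r * star r) := by rw [isSelfAdjoint_iff]; simp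
  rw [hsa.spectralRadius_eq_nnnorm, ← ofReal_norm', ENNReal.ofReal_le_ofReal_iff (norm_nonneg _), CStarRing.norm_self_mul_star] at hrad
  have h5 : ‖r‖ * ‖r‖ ≤ (K * ‖g‖) * ‖r‖ := by
    calc ‖r‖ * ‖r‖ ≤ ‖g * v‖ := hrad
      _ ≤ ‖g‖ * ‖v‖ := norm_mul_le _ _
      _ ≤ ‖g‖ * (K * ‖r‖) := by gcongr
      _ = (K * ‖g‖) * ‖r‖ := by ring
  rcases (norm_nonneg r).lt_or_eq with h | h
  · exact le_of_mul_le_mul_right h5 h
  · rw [← h]; positivity

end CStar

end Pool.Agent.Helper192.HK
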