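import Mathlib
import Pool.Agent.Helper192.HK.E
import Pool.Agent.Helper192.HK.F

set_option autoImplicit false
set_option linter.unusedSectionVars false

open Filter Topology
open scoped ComplexOrder CStarAlgebra

noncomputable section

namespace Pool.Agent.Helper192.HK

section States

variable {B : Type*} [CStarAlgebra B] [PartialOrder B] [StarOrderedRing B] [Nontrivial B]

/-- a functional of norm at most one with value one at `1` is real on self-adjoint elements -/
theorem state_im (l : B →L[ℂ] ℂ) (hl : ‖l‖ ≤ 1) (hl1 : l 1 = 1) (a : B) (ha : IsSelfAdjoint a) : (l a).im = 0 := by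
  have key : ∀ R : ℝ, (l a).re ^ 2 + ((l a).im - R) ^ 2 ≤ ‖a‖ ^ 2 + R ^ 2 := by
    intro R
    have e1 : l (a - ((R : ℂ) * Complex.I) • 1) = l a - (R : ℂ) * Complex.I := by
      rw [map_sub, map_smul, hl1, smul_eq_mul, mul_one]
    have e2 : ‖l (a - ((R : ℂ) * Complex.I) • 1)‖ ≤ ‖a - ((R : ℂ) * Complex.I) • 1‖ := by
      simpa using l.le_of_opNorm_le hl (a - ((R : ℂ) * Complex.I) • 1)
    have e3 : ‖a - ((R : ℂ) * Complex.I) • (1 : B)‖ ^ 2 ≤ ‖a‖ ^ 2 + R ^ 2 := by
      have h1 : star (a - ((R : ℂ) * Complex.I) • (1 : B)) * (a - ((R : ℂ) * Complex.I) • (1 : B)) = a * a + ((R : ℂ) ^ 2) • 1 := by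
        rw [star_sub, star_smul, ha.star_eq, star_one]
        have h2 : star ((R : ℂ) * Complex.I) = -((R : ℂ) * Complex.I) := by
          simp
        rw [h2, neg_smul, sub_neg_eq_add, add_mul, mul_sub, mul_sub, smul_mul_smul_comm, smul_mul_assoc, one_mul,
          mul_smul_comm, mul_one, mul_one]
        have h3 : (R : ℂ) * Complex.I * ((R : ℂ) * Complex.I) = -((R : ℂ) ^ 2) := by
          rw [mul_mul_mul_comm, Complex.I_mul_I]; ring
        rw [h3, neg_smul]
        abel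
      rw [pow_two, ← CStarRing.norm_star_mul_self, h1]
      calc ‖a * a + ((R : ℂ) ^ 2) • (1 : B)‖ ≤ ‖a * a‖ + ‖((R : ℂ) ^ 2) • (1 : B)‖ := norm_add_le _ _
        _ ≤ ‖a‖ * ‖a‖ + R ^ 2 := by
            refine add_le_add (norm_mul_le _ _) ?_
            rw [norm_smul, norm_one, mul_one, norm_pow, Complex.norm_real, Real.norm_eq_abs, sq_abs]
        _ = ‖a‖ ^ 2 + R ^ 2 := by ring
    have e4 : ‖l a - (R : ℂ) * Complex.I‖ ^ 2 = (l a).re ^ 2 + ((l a).im - R) ^ 2 := by
      rw [← Complex.normSq_eq_norm_sq, Complex.normSq_apply]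
      simp
      ring
    rw [← e4, ← e1]
    calc ‖l (a - ((R : ℂ) * Complex.I) • 1)‖ ^ 2 ≤ ‖a - ((R : ℂ) * Complex.I) • (1 : B)‖ ^ 2 := by gcongr
      _ ≤ _ := e3
  by_contra hne
  set y := (l a).im with hy
  have h1 := key (-(‖a‖ ^ 2 + 1) / (2 * y))
  have h2 : (y - -(‖a‖ ^ 2 + 1) / (2 * y)) ^ 2 = y ^ 2 + (‖a‖ ^ 2 + 1) + (-(‖a‖ ^ 2 + 1) / (2 * y)) ^ 2 := by
    field_simp
    ring
  rw [h2] at h1
  nlinarith [sq_nonneg (l a).re, sq_nonneg y]

theorem state_re (l : B →L[ℂ] ℂ) (hl : ‖l‖ ≤ 1) (hl1 : l 1 = 1) (a : B) (ha : 0 ≤ a) : 0 ≤ (l a).re := by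
  have h0 : IsSelfAdjoint a := IsSelfAdjoint.of_nonneg ha
  have h1 : a ≤ algebraMap ℝ B ‖a‖ := h0.le_algebraMap_norm_self
  have h2 : 0 ≤ algebraMap ℝ B ‖a‖ - a := sub_nonneg.mpr h1
  have h3 : algebraMap ℝ B ‖a‖ - a ≤ algebraMap ℝ B ‖a‖ := sub_le_self _ ha
  have h4 : ‖algebraMap ℝ B ‖a‖ - a‖ ≤ ‖a‖ := by
    rw [CStarAlgebra.norm_le_iff_le_algebraMap _ (norm_nonneg _) h2]
    exact h3
  have h5 : ‖l (algebraMap ℝ B ‖a‖ - a)‖ ≤ ‖a‖ := by
    have := l.le_of_opNorm_le hl (algebraMap ℝ B ‖a‖ - a)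
    rw [one_mul] at this
    exact this.trans h4
  have h6 : l (algebraMap ℝ B ‖a‖ - a) = (‖a‖ : ℂ) - l a := by
    rw [map_sub]
    congr 1
    rw [Algebra.algebraMap_eq_smul_one, ← Complex.coe_smul, map_smul, hl1, smul_eq_mul, mul_one]
  rw [h6] at h5
  have h7 := (Complex.re_le_norm ((‖a‖ : ℂ) - l a)).trans h5
  simp at h7
  linarith

theorem exists_state (c : B) (hc : 0 ≤ c) : ∃ f : B →ₚ[ℂ] ℂ, f c = (‖c‖ : ℂ) := by
  obtain ⟨l, hl, hl1⟩ := exists_dual_vector'' ℂ (1 + c)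
  have hn : 1 + ‖c‖ ≤ ‖1 + c‖ := by
    have h1 : ‖c‖ ∈ spectrum ℝ c := CStarAlgebra.norm_mem_spectrum_of_nonneg hc
    have h2 : 1 + ‖c‖ ∈ spectrum ℝ (1 + c) := by
      have := (spectrum.add_mem_add_iff (R := ℝ) (a := c) (r := ‖c‖) (s := 1)).mpr h1
      rw [map_one] at this
      rw [add_comm 1 ‖c‖]
      exact this
    have h3 := spectrum.norm_le_norm_of_mem h2
    rw [Real.norm_eq_abs] at h3
    exact (le_abs_self _).trans h3
  have hlx : ∀ x, ‖l x‖ ≤ ‖x‖ := fun x => by simpa using l.le_of_opNorm_le hl x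
  have a1 : ‖l 1‖ ≤ 1 := by simpa using hlx 1
  have a2 : ‖l c‖ ≤ ‖c‖ := hlx c
  have a3 : l 1 + l c = (‖1 + c‖ : ℂ) := by rw [← map_add, hl1]; rfl
  have a4 : (l 1).re + (l c).re = ‖1 + c‖ := by
    have := congrArg Complex.re a3
    simpa using this
  have a5 := Complex.re_le_norm (l 1)
  have a6 := Complex.re_le_norm (l c)
  have b1 : (l 1).re = 1 := by linarith
  have b2 : (l c).re = ‖c‖ := by linarith
  have c1 : l 1 = 1 := by
    have h1 : ‖l 1‖ = 1 := by linarith
    have h2 : ‖l 1‖ ^ 2 = (l 1).re ^ 2 + (l 1).im ^ 2 := by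
      rw [← Complex.normSq_eq_norm_sq, Complex.normSq_apply]; ring
    rw [h1, b1] at h2
    have h3 : (l 1).im = 0 := by
      have : (l 1).im ^ 2 = 0 := by linarith
      exact pow_eq_zero_iff (two_ne_zero) |>.mp this
    apply Complex.ext <;> simp [b1, h3]
  refine ⟨PositiveLinearMap.mk₀ l.toLinearMap (fun x hx => ?_), ?_⟩
  · rw [Complex.le_def]
    refine ⟨?_, ?_⟩
    · exact state_re l hl c1 x hx
    · exact (state_im l hl c1 x (IsSelfAdjoint.of_nonneg hx)).symm
  · show l c = _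
    apply Complex.ext
    · simpa using b2
    · simpa using state_im l hl c1 c (IsSelfAdjoint.of_nonneg hc)

theorem eq_zero_of_gns (d : B) (h : ∀ f : B →ₚ[ℂ] ℂ, f.gnsStarAlgHom d = 0) : d = 0 := by
  obtain ⟨f, hf⟩ := exists_state (star d * d) (star_mul_self_nonneg d)
  have h1 := h f
  have h2 : f.leftMulMapPreGNS d (f.toPreGNS 1) = f.toPreGNS d := by simp
  have h3 : (f.gnsStarAlgHom d) ((f.toPreGNS 1 : f.PreGNS) : f.GNS) = ((f.toPreGNS d : f.PreGNS) : f.GNS) := by
    show (f.gnsNonUnitalStarAlgHom d) _ = _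
    rw [PositiveLinearMap.gnsNonUnitalStarAlgHom_apply_coe, h2]
  rw [h1] at h3
  have h4 : ‖((f.toPreGNS d : f.PreGNS) : f.GNS)‖ = 0 := by
    rw [← h3]; simp
  rw [UniformSpace.Completion.norm_coe] at h4
  have h5 := f.preGNS_norm_sq (f.toPreGNS d)
  rw [h4] at h5
  have h6 : f (star d * d) = 0 := by
    rw [PositiveLinearMap.ofPreGNS_toPreGNS] at h5
    rw [← h5]; simp
  rw [hf] at h6
  have h7 : ‖star d * d‖ = 0 := by exact_mod_cast h6
  rw [CStarRing.norm_star_mul_self] at h7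
  have h8 : ‖d‖ = 0 := by simpa using h7
  exact norm_eq_zero.mp h8

end States

section Assembly

variable {A B : Type*} [CStarAlgebra A] [NormOneClass A] [CStarAlgebra B] [Nontrivial B]

theorem sq_selfAdjoint (T : A →ₗ[ℂ] B) (hs : Function.Surjective T) (h1 : T 1 = 1) (hT : ∀ a, IsUnit a → IsUnit (T a))
    (h : A) (hh : IsSelfAdjoint h) : T (h * h) = T h * T h := by
  let _ := CStarAlgebra.spectralOrder B
  have _ := CStarAlgebra.spectralOrderedRing B
  obtain ⟨K, hK, hinv⟩ := inv_bound T hs h1 hT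
  have hn : IsStarNormal h := hh.isStarNormal
  rw [← sub_eq_zero]
  refine eq_zero_of_gns _ (fun f => ?_)
  set TL : A →L[ℂ] B := ⟨T, T_continuous T hs h1 hT⟩ with hTL
  set Φ : C(spectrum ℂ h, ℂ) →⋆ₐ[ℂ] A := cfcHom hn with hΦ
  have hΦn : ∀ g, ‖Φ g‖ = ‖g‖ := fun g => norm_cfcHom h g hn
  set ΦL : C(spectrum ℂ h, ℂ) →L[ℂ] A := LinearMap.mkContinuous Φ.toAlgHom.toLinearMap 1 (fun g => by
    rw [one_mul]; exact (hΦn g).le) with hΦL
  set πL : B →L[ℂ] (f.GNS →L[ℂ] f.GNS) := LinearMap.mkContinuous f.gnsStarAlgHom.toAlgHom.toLinearMap 1 (fun b => by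
    rw [one_mul]; exact NonUnitalStarAlgHom.norm_apply_le f.gnsStarAlgHom b) with hπL
  set S : C(spectrum ℂ h, ℂ) →L[ℂ] (f.GNS →L[ℂ] f.GNS) := πL.comp (TL.comp ΦL) with hS
  have hSx : ∀ g, S g = f.gnsStarAlgHom (T (Φ g)) := fun g => rfl
  have hS1 : S 1 = 1 := by rw [hSx, map_one, h1, map_one]
  have hI : HInv S K := by
    intro u v huv
    have e1 : Φ u * Φ v = 1 := by rw [← map_mul, huv, map_one]
    have e2 : Φ v * Φ u = 1 := by rw [← map_mul, mul_comm, huv, map_one]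
    obtain ⟨r, r1, r2, r3⟩ := hinv _ _ e1 e2
    refine ⟨f.gnsStarAlgHom r, ?_, ?_, ?_⟩
    · rw [hSx, ← map_mul, r1, map_one]
    · rw [hSx, ← map_mul, r2, map_one]
    · refine (NonUnitalStarAlgHom.norm_apply_le f.gnsStarAlgHom r).trans ?_
      rwa [hΦn] at r3
  set k : C(spectrum ℂ h, ℝ) := ⟨fun x => (x : ℂ).re, by fun_prop⟩ with hk
  have hkC : toC k = (ContinuousMap.id ℂ).restrict (spectrum ℂ h) := by
    ext x
    exact (hh.mem_spectrum_eq_re x.2).symm
  have hΦk : Φ (toC k) = h := by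
    rw [hkC]; exact cfcHom_id hn
  have key := S_sq S hS1 K hK.le hI k
  rw [hSx, hSx, map_mul, hΦk] at key
  rw [map_sub, key, map_mul, sub_self]

theorem jordan (T : A →ₗ[ℂ] B) (hs : Function.Surjective T) (h1 : T 1 = 1) (hT : ∀ a, IsUnit a → IsUnit (T a))
    (a : A) : T (a * a) = T a * T a := by
  have hsq := sq_selfAdjoint T hs h1 hT
  set x : A := ((realPart a : selfAdjoint A) : A) with hx
  set y : A := ((imaginaryPart a : selfAdjoint A) : A) with hy
  have hxs : IsSelfAdjoint x := (realPart a).2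
  have hys : IsSelfAdjoint y := (imaginaryPart a).2
  have ha : a = x + Complex.I • y := (realPart_add_I_smul_imaginaryPart a).symm
  have h2 := hsq x hxs
  have h3 := hsq y hys
  have h4 := hsq (x + y) (hxs.add hys)
  have h5 : T (x * y + y * x) = T x * T y + T y * T x := by
    have e1 : (x + y) * (x + y) = x * x + y * y + (x * y + y * x) := by noncomm_ring
    rw [e1, map_add T (x * x + y * y), map_add T (x * x), h2, h3, map_add T x y] at h4
    have e2 : (T x + T y) * (T x + T y) = T x * T x + T y * T y + (T x * T y + T y * T x) := by noncomm_ring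
    rw [e2] at h4
    exact add_left_cancel h4
  have e3 : a * a = x * x - y * y + Complex.I • (x * y + y * x) := by
    rw [ha, add_mul, mul_add, mul_add, smul_mul_smul_comm, Complex.I_mul_I, neg_one_smul, mul_smul_comm, smul_mul_assoc, smul_add]
    abel
  have e4 : T a * T a = T x * T x - T y * T y + Complex.I • (T x * T y + T y * T x) := by
    rw [ha, map_add, map_smul, add_mul, mul_add, mul_add, smul_mul_smul_comm, Complex.I_mul_I, neg_one_smul, mul_smul_comm,
      smul_mul_assoc, smul_add]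
    abel
  rw [e3, e4, map_add, map_sub, map_smul, h2, h3, h5]

end Assembly

theorem harris_kadison (A B : Type*) [CStarAlgebra A] [CStarAlgebra B] (T : A →ₗ[ℂ] B) (hs : Function.Surjective T)
    (h1 : T 1 = 1) (hT : ∀ a, IsUnit a → IsUnit (T a)) (a : A) : T (a * a) = T a * T a := by
  rcases subsingleton_or_nontrivial B with hB | hB
  · exact Subsingleton.elim _ _
  · have hA : Nontrivial A := by
      by_contra hcon
      rw [not_nontrivial_iff_subsingleton] at hcon
      have : (1 : A) = 0 := Subsingleton.elim _ _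
      rw [this, map_zero] at h1
      exact zero_ne_one h1
    exact jordan T hs h1 hT a

end Pool.Agent.Helper192.HK
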